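import Mathlib

set_option autoImplicit false

/-! Uniform averages on finite types and a concentration bound for repeated covering. -/

namespace Pool.Agent.H41Z.TD

open Finset
open scoped Classical

/-- uniform average -/
noncomputable def Ex {Ω : Type} [Fintype Ω] (f : Ω → ℝ) : ℝ := (∑ ω, f ω) / Fintype.card Ω

section basic
variable {Ω : Type} [Fintype Ω]

lemma Ex_mono {f g : Ω → ℝ} (h : ∀ ω, f ω ≤ g ω) : Ex f ≤ Ex g :=
  div_le_div_of_nonneg_right (Finset.sum_le_sum (fun ω _ => h ω)) (Nat.cast_nonneg _)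

lemma Ex_congr {f g : Ω → ℝ} (h : ∀ ω, f ω = g ω) : Ex f = Ex g := by
  rw [funext h]

lemma Ex_const [Nonempty Ω] (a : ℝ) : Ex (fun _ : Ω => a) = a := by
  have : (0 : ℝ) < Fintype.card Ω := by exact_mod_cast Fintype.card_pos
  unfold Ex
  rw [Finset.sum_const, Finset.card_univ, nsmul_eq_mul]
  field_simp

lemma Ex_add (f g : Ω → ℝ) : Ex (fun ω => f ω + g ω) = Ex f + Ex g := by
  unfold Ex
  rw [Finset.sum_add_distrib, add_div]

lemma Ex_sub (f g : Ω → ℝ) : Ex (fun ω => f ω - g ω) = Ex f - Ex g := by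
  unfold Ex
  rw [Finset.sum_sub_distrib, sub_div]

lemma Ex_mul_left (a : ℝ) (f : Ω → ℝ) : Ex (fun ω => a * f ω) = a * Ex f := by
  unfold Ex
  rw [← Finset.mul_sum, mul_div_assoc]

lemma Ex_mul_right (a : ℝ) (f : Ω → ℝ) : Ex (fun ω => f ω * a) = Ex f * a := by
  unfold Ex
  rw [← Finset.sum_mul]
  ring

lemma Ex_sum {ι : Type} (s : Finset ι) (f : ι → Ω → ℝ) :
    Ex (fun ω => ∑ i ∈ s, f i ω) = ∑ i ∈ s, Ex (f i) := by
  unfold Ex
  rw [Finset.sum_comm, Finset.sum_div]

lemma Ex_nonneg {f : Ω → ℝ} (h : ∀ ω, 0 ≤ f ω) : 0 ≤ Ex f :=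
  div_nonneg (Finset.sum_nonneg (fun ω _ => h ω)) (Nat.cast_nonneg _)

lemma Ex_equiv {Ω' : Type} [Fintype Ω'] (e : Ω ≃ Ω') (f : Ω' → ℝ) :
    Ex (fun ω => f (e ω)) = Ex f := by
  unfold Ex
  rw [Equiv.sum_comp e f, Fintype.card_congr e]

lemma Ex_prod {Ω' : Type} [Fintype Ω'] (f : Ω × Ω' → ℝ) :
    Ex f = Ex (fun a => Ex (fun b => f (a, b))) := by
  unfold Ex
  rw [Fintype.sum_prod_type, Fintype.card_prod, ← Finset.sum_div]
  push_cast
  rw [div_div, mul_comm]

end basic

section update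
variable {V C : Type} [Fintype V] [Fintype C]

/-- exchange a coordinate with an extra value -/
noncomputable def updEquiv (y : V) : (V → C) × C ≃ (V → C) × C where
  toFun p := (Function.update p.1 y p.2, p.1 y)
  invFun p := (Function.update p.1 y p.2, p.1 y)
  left_inv p := by simp
  right_inv p := by simp

lemma Ex_update [Nonempty C] (y : V) (f : (V → C) → ℝ) :
    Ex f = Ex (fun ω => Ex (fun c : C => f (Function.update ω y c))) := by
  have h1 : Ex (fun p : (V → C) × C => f p.1) = Ex f := by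
    rw [Ex_prod]
    exact Ex_congr (fun ω => Ex_const (Ω := C) (f ω))
  rw [← h1, ← Ex_equiv (updEquiv y) (fun p : (V → C) × C => f p.1), Ex_prod]
  rfl

/-- integrate out one coordinate -/
lemma Ex_cond [Nonempty C] (y : V) (A B : (V → C) → ℝ) (φ : ℝ → C → ℝ) (ψ : ℝ → ℝ)
    (hA : ∀ ω c, A (Function.update ω y c) = A ω)
    (hB : ∀ ω c, B (Function.update ω y c) = B ω)
    (hφ : ∀ ω, Ex (φ (B ω)) = ψ (B ω)) :
    Ex (fun ω => A ω * φ (B ω) (ω y)) = Ex (fun ω => A ω * ψ (B ω)) := by
  rw [Ex_update y]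
  refine Ex_congr (fun ω => ?_)
  simp only [hA, hB, Function.update_self]
  rw [Ex_mul_left, ← hφ ω]

end update

section cover
variable {V Ω : Type} [Fintype Ω]

/-- the elements of `Y` covered by none of the sampled sets -/
noncomputable def unc {K : ℕ} (I : Ω → V → Prop) (Y : Finset V) (w : Fin K → Ω) : Finset V :=
  Y.filter (fun u => ∀ c, ¬ I (w c) u)

lemma cover_bound [Nonempty Ω] (I : Ω → V → Prop) (D t : ℕ) (lam q : ℝ) (hlam : 0 ≤ lam)
    (hq : 0 ≤ q)
    (hI : ∀ Y : Finset V, Y.card ≤ D → t ≤ Y.card →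
      Ex (fun ω => Real.exp (-(lam * ((Y.filter (I ω)).card : ℝ)))) ≤ q) :
    ∀ (K : ℕ) (Y : Finset V), Y.card ≤ D →
      Ex (fun w : Fin K → Ω => if t ≤ (unc I Y w).card then (1 : ℝ) else 0) ≤
        Real.exp (lam * ((Y.card : ℝ) - t)) * q ^ K := by
  intro K
  induction K with
  | zero =>
    intro Y _
    rw [pow_zero, mul_one, ← Ex_const (Ω := Fin 0 → Ω) (Real.exp (lam * ((Y.card : ℝ) - t)))]
    refine Ex_mono (fun w => ?_)
    split_ifs with h
    · have h1 : t ≤ Y.card := h.trans (Finset.card_le_card (Finset.filter_subset _ _))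
      have h2 : (t : ℝ) ≤ Y.card := by exact_mod_cast h1
      exact Real.one_le_exp (mul_nonneg hlam (by linarith))
    · exact (Real.exp_pos _).le
  | succ K ih =>
    intro Y hY
    by_cases ht : t ≤ Y.card
    · rw [← Ex_equiv (Fin.consEquiv (fun _ : Fin (K + 1) => Ω)), Ex_prod]
      have h1 : ∀ (a : Ω) (b : Fin K → Ω),
          unc I Y ((Fin.consEquiv (fun _ : Fin (K + 1) => Ω)) (a, b)) =
            unc I (Y.filter (fun u => ¬ I a u)) b := by
        intro a b
        ext u
        simp [unc, Fin.forall_fin_succ, Fin.consEquiv, and_assoc]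
      calc Ex (fun a : Ω => Ex (fun b : Fin K → Ω =>
              if t ≤ (unc I Y ((Fin.consEquiv (fun _ : Fin (K + 1) => Ω)) (a, b))).card
              then (1 : ℝ) else 0))
          ≤ Ex (fun a : Ω => (Real.exp (lam * ((Y.card : ℝ) - t)) * q ^ K) *
              Real.exp (-(lam * ((Y.filter (I a)).card : ℝ)))) := by
            refine Ex_mono (fun a => ?_)
            simp only [h1]
            refine (ih _ ((Finset.card_le_card (Finset.filter_subset _ _)).trans hY)).trans ?_
            have h2 : ((Y.filter (I a)).card : ℝ) + ((Y.filter (fun u => ¬ I a u)).card : ℝ) =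
                Y.card := by
              exact_mod_cast Finset.card_filter_add_card_filter_not (s := Y) (I a)
            rw [mul_right_comm, ← Real.exp_add]
            apply le_of_eq
            congr 2
            rw [← h2]; ring
        _ = (Real.exp (lam * ((Y.card : ℝ) - t)) * q ^ K) *
              Ex (fun a : Ω => Real.exp (-(lam * ((Y.filter (I a)).card : ℝ)))) := Ex_mul_left _ _
        _ ≤ (Real.exp (lam * ((Y.card : ℝ) - t)) * q ^ K) * q :=
            mul_le_mul_of_nonneg_left (hI Y hY ht) (by positivity)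
        _ = _ := by ring
    · have h0 : Ex (fun w : Fin (K + 1) → Ω => if t ≤ (unc I Y w).card then (1 : ℝ) else 0) =
          Ex (fun _ : Fin (K + 1) → Ω => (0 : ℝ)) := by
        refine Ex_congr (fun w => ?_)
        rw [if_neg]
        intro h
        exact ht (h.trans (Finset.card_le_card (Finset.filter_subset _ _)))
      rw [h0, Ex_const]
      positivity

end cover

lemma exp_neg_le_quad {x : ℝ} (hx : 0 ≤ x) : Real.exp (-x) ≤ 1 - x + x ^ 2 / 2 := by
  have h1 := Real.quadratic_le_exp_of_nonneg hx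
  have h2 : 0 < 1 + x + x ^ 2 / 2 := by positivity
  rw [Real.exp_neg, inv_le_comm₀ (Real.exp_pos _) (by nlinarith [sq_nonneg (x - 1)])]
  refine le_trans ?_ h1
  rw [inv_le_iff_one_le_mul₀ (by nlinarith [sq_nonneg (x - 1)])]
  nlinarith [sq_nonneg (x ^ 2)]

lemma inv_one_sub_le_exp {p : ℝ} (h0 : 0 ≤ p) (h1 : p ≤ 1 / 2) :
    1 / (1 - p) ≤ Real.exp (2 * p) := by
  have h2 := Real.add_one_le_exp (2 * p)
  refine le_trans ?_ h2
  rw [div_le_iff₀ (by linarith)]
  nlinarith

end Pool.Agent.H41Z.TD
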