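import Mathlib
import Pool.Agent.H41Z.TD.Prob

set_option autoImplicit false

/-! The weighted random independent set process on a layered graph. -/

namespace Pool.Agent.H41Z.TD

open Finset
open scoped Classical

/-- firing threshold -/
noncomputable def thr (M : ℕ) (cap w : ℝ) : ℕ := ⌊(M : ℝ) * min w cap⌋₊

/-- firing probability -/
noncomputable def pr (M : ℕ) (cap w : ℝ) : ℝ := (thr M cap w : ℝ) / M

/-- indicator of firing -/
noncomputable def fi (M : ℕ) (cap w : ℝ) (c : Fin M) : ℝ := if c.val < thr M cap w then 1 else 0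

/-- multiplier passed to the lower neighbours -/
noncomputable def gm (M : ℕ) (cap w : ℝ) (c : Fin M) : ℝ :=
  if c.val < thr M cap w then 0 else 1 / (1 - pr M cap w)

section scalar
variable {M : ℕ} {cap : ℝ}

lemma pr_nonneg (w : ℝ) : 0 ≤ pr M cap w := by
  unfold pr; positivity

lemma pr_le_min (hM : 0 < M) {w : ℝ} (h : 0 ≤ min w cap) : pr M cap w ≤ min w cap := by
  have hM' : (0 : ℝ) < M := by exact_mod_cast hM
  unfold pr thr
  rw [div_le_iff₀ hM', mul_comm (min w cap)]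
  exact Nat.floor_le (by positivity)

lemma pr_le_cap (hM : 0 < M) (hc : 0 ≤ cap) (w : ℝ) : pr M cap w ≤ cap := by
  by_cases h : 0 ≤ min w cap
  · exact (pr_le_min hM h).trans (min_le_right _ _)
  · have hM' : (0 : ℝ) < M := by exact_mod_cast hM
    have : thr M cap w = 0 := by
      unfold thr
      rw [Nat.floor_eq_zero]
      push Not at h
      nlinarith
    unfold pr
    rw [this]; simpa using hc

lemma pr_le_self (hM : 0 < M) (hc : 0 ≤ cap) {w : ℝ} (hw : 0 ≤ w) : pr M cap w ≤ w :=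
  (pr_le_min hM (le_min hw hc)).trans (min_le_left _ _)

lemma min_sub_le_pr (hM : 0 < M) (w : ℝ) : min w cap - 1 / M ≤ pr M cap w := by
  have hM' : (0 : ℝ) < M := by exact_mod_cast hM
  unfold pr thr
  rw [le_div_iff₀ hM']
  have := Nat.lt_floor_add_one ((M : ℝ) * min w cap)
  have h2 : (min w cap - 1 / M) * M = M * min w cap - 1 := by field_simp
  linarith

lemma thr_zero (hc : 0 ≤ cap) : thr M cap 0 = 0 := by
  unfold thr
  rw [min_eq_left hc]; simp

lemma fi_nonneg (w : ℝ) (c : Fin M) : 0 ≤ fi M cap w c := by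
  unfold fi; split_ifs <;> norm_num

lemma fi_mul_self (w : ℝ) (c : Fin M) : fi M cap w c * fi M cap w c = fi M cap w c := by
  unfold fi; split_ifs <;> norm_num

lemma Ex_fi (hM : 0 < M) (hc : 0 ≤ cap) (hc1 : cap ≤ 1 / 2) (w : ℝ) :
    Ex (fi M cap w) = pr M cap w := by
  have hM' : (0 : ℝ) < M := by exact_mod_cast hM
  have hle : thr M cap w ≤ M := by
    have h1 := pr_le_cap hM hc w
    unfold pr at h1
    rw [div_le_iff₀ hM'] at h1
    have : (thr M cap w : ℝ) ≤ M := by nlinarith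
    exact_mod_cast this
  unfold Ex pr fi
  rw [Fintype.card_fin]
  congr 1
  rw [Fin.sum_univ_eq_sum_range (fun i => if i < thr M cap w then (1 : ℝ) else 0) M,
    ← Finset.sum_filter]
  have : (Finset.range M).filter (fun i => i < thr M cap w) = Finset.range (thr M cap w) := by
    ext i
    simp only [mem_filter, mem_range]
    omega
  rw [this]; simp

lemma Ex_gm (hM : 0 < M) (hc : 0 ≤ cap) (hc1 : cap ≤ 1 / 2) (w : ℝ) :
    Ex (gm M cap w) = 1 := by
  have : Nonempty (Fin M) := ⟨⟨0, hM⟩⟩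
  have h1 := pr_le_cap hM hc w
  have h2 : gm M cap w = fun c => (1 - fi M cap w c) * (1 / (1 - pr M cap w)) := by
    funext c
    unfold gm fi
    split_ifs <;> simp
  rw [h2, Ex_mul_right, Ex_sub, Ex_const, Ex_fi hM hc hc1]
  have : 1 - pr M cap w ≠ 0 := by linarith
  field_simp

lemma gm_nonneg (hM : 0 < M) (hc : 0 ≤ cap) (hc1 : cap ≤ 1 / 2) (w : ℝ) (c : Fin M) :
    0 ≤ gm M cap w c := by
  have h1 := pr_le_cap hM hc w
  unfold gm
  split_ifs
  · exact le_rfl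
  · apply div_nonneg zero_le_one; linarith

lemma gm_le_exp (hM : 0 < M) (hc : 0 ≤ cap) (hc1 : cap ≤ 1 / 2) {w : ℝ} (hw : 0 ≤ w) (c : Fin M) :
    gm M cap w c ≤ Real.exp (2 * w) := by
  have h1 := pr_le_cap hM hc w
  unfold gm
  split_ifs
  · exact (Real.exp_pos _).le
  · refine (inv_one_sub_le_exp (pr_nonneg w) (h1.trans hc1)).trans ?_
    exact Real.exp_le_exp.2 (by linarith [pr_le_self hM hc hw])

end scalar

variable {V : Type} [Fintype V]

lemma exists_weights (M : ℕ) (w0 cap : ℝ) (P : V → Finset V) (l : V → ℕ)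
    (hP : ∀ v, ∀ u ∈ P v, l v < l u) :
    ∃ W : (V → Fin M) → V → ℝ, ∀ ω v, W ω v = w0 * ∏ u ∈ P v, gm M cap (W ω u) (ω u) := by
  let L := univ.sup l
  let r : V → V → Prop := fun u v => L - l u < L - l v
  have hwf : WellFounded r := InvImage.wf (fun v => L - l v) Nat.lt_wfRel.wf
  have hr : ∀ v, ∀ u ∈ P v, r u v := by
    intro v u hu
    have h1 := hP v u hu
    have h2 : l u ≤ L := Finset.le_sup (f := l) (mem_univ u)
    simp only [r]
    omega
  refine ⟨fun ω => hwf.fix (fun v ih => w0 * ∏ u ∈ P v,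
    gm M cap (if h : r u v then ih u h else 0) (ω u)), ?_⟩
  intro ω v
  beta_reduce
  rw [WellFounded.fix_eq]
  congr 1
  refine Finset.prod_congr rfl (fun u hu => ?_)
  rw [dif_pos (hr v u hu)]

/-- data of the process -/
structure Proc (V : Type) [Fintype V] where
  M : ℕ
  w0 : ℝ
  cap : ℝ
  P : V → Finset V
  l : V → ℕ
  W : (V → Fin M) → V → ℝ
  hM : 0 < M
  hw0 : 0 ≤ w0
  hc0 : 0 ≤ cap
  hc1 : cap ≤ 1 / 2
  hP : ∀ v, ∀ u ∈ P v, l v < l u
  hW : ∀ ω v, W ω v = w0 * ∏ u ∈ P v, gm M cap (W ω u) (ω u)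

namespace Proc

variable (X : Proc V)

instance : Nonempty (Fin X.M) := ⟨⟨0, X.hM⟩⟩

lemma W_nonneg (ω : V → Fin X.M) (v : V) : 0 ≤ X.W ω v := by
  rw [X.hW]
  exact mul_nonneg X.hw0 (Finset.prod_nonneg (fun u _ => gm_nonneg X.hM X.hc0 X.hc1 _ _))

lemma W_dep (T : Set V) (hT : ∀ v ∈ T, ∀ u ∈ X.P v, u ∈ T) (ω ω' : V → Fin X.M)
    (h : ∀ v ∈ T, ω v = ω' v) :
    ∀ v, (∀ u ∈ X.P v, u ∈ T) → X.W ω v = X.W ω' v := by
  have key : ∀ n : ℕ, ∀ v, univ.sup X.l - X.l v < n → (∀ u ∈ X.P v, u ∈ T) →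
      X.W ω v = X.W ω' v := by
    intro n
    induction n with
    | zero => intro v hv; omega
    | succ n ih =>
      intro v hv hPv
      rw [X.hW ω v, X.hW ω' v]
      congr 1
      refine Finset.prod_congr rfl (fun u hu => ?_)
      have h1 := X.hP v u hu
      have h2 : X.l u ≤ univ.sup X.l := Finset.le_sup (f := X.l) (mem_univ u)
      rw [ih u (by omega) (hT u (hPv u hu)), h u (hPv u hu)]
  intro v
  exact key _ v (Nat.lt_succ_self _)

lemma W_update (ω : V → Fin X.M) (y : V) (c : Fin X.M) (v : V) (hv : X.l y ≤ X.l v) :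
    X.W (Function.update ω y c) v = X.W ω v := by
  refine X.W_dep {z | X.l y < X.l z} ?_ _ _ ?_ v ?_
  · intro a ha u hu
    exact lt_trans ha (X.hP a u hu)
  · intro a ha
    have : a ≠ y := by rintro rfl; exact lt_irrefl (X.l a) ha
    rw [Function.update_of_ne this]
  · intro u hu
    exact lt_of_le_of_lt hv (X.hP v u hu)

/-- indicator that `v` fires -/
noncomputable def f (ω : V → Fin X.M) (v : V) : ℝ := fi X.M X.cap (X.W ω v) (ω v)

/-- multiplier of `v` -/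
noncomputable def g (ω : V → Fin X.M) (v : V) : ℝ := gm X.M X.cap (X.W ω v) (ω v)

lemma f_update (ω : V → Fin X.M) (y : V) (c : Fin X.M) (v : V) (hv : X.l y ≤ X.l v)
    (hne : v ≠ y) : X.f (Function.update ω y c) v = X.f ω v := by
  unfold f
  rw [X.W_update ω y c v hv, Function.update_of_ne hne]

lemma g_update (ω : V → Fin X.M) (y : V) (c : Fin X.M) (v : V) (hv : X.l y ≤ X.l v)
    (hne : v ≠ y) : X.g (Function.update ω y c) v = X.g ω v := by
  unfold g
  rw [X.W_update ω y c v hv, Function.update_of_ne hne]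

lemma f_nonneg (ω : V → Fin X.M) (v : V) : 0 ≤ X.f ω v := fi_nonneg _ _

lemma Ex_prod_g : ∀ (n : ℕ) (S : Finset V), S.card = n → Ex (fun ω => ∏ u ∈ S, X.g ω u) = 1 := by
  intro n
  induction n with
  | zero =>
    intro S hS
    rw [Finset.card_eq_zero] at hS
    subst hS
    simp only [Finset.prod_empty]
    exact Ex_const 1
  | succ n ih =>
    intro S hS
    obtain ⟨y, hy, hmin⟩ := Finset.exists_min_image S X.l (by rw [← Finset.card_pos]; omega)
    have h1 : ∀ ω, ∏ u ∈ S, X.g ω u =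
        (∏ u ∈ S.erase y, X.g ω u) * gm X.M X.cap (X.W ω y) (ω y) := by
      intro ω
      rw [← Finset.prod_erase_mul _ _ hy]; rfl
    rw [Ex_congr h1, Ex_cond y (fun ω => ∏ u ∈ S.erase y, X.g ω u) (fun ω => X.W ω y)
      (gm X.M X.cap) (fun _ => 1) ?_ (fun ω c => X.W_update ω y c y le_rfl)
      (fun ω => Ex_gm X.hM X.hc0 X.hc1 _)]
    · simp only [mul_one]
      exact ih _ (by rw [Finset.card_erase_of_mem hy]; omega)
    · intro ω c
      refine Finset.prod_congr rfl (fun u hu => ?_)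
      exact X.g_update ω y c u (hmin u (Finset.mem_of_mem_erase hu)) (Finset.ne_of_mem_erase hu)

lemma Ex_W (v : V) : Ex (fun ω => X.W ω v) = X.w0 := by
  rw [Ex_congr (fun ω => X.hW ω v), Ex_mul_left]
  have := X.Ex_prod_g _ (X.P v) rfl
  unfold g at this
  rw [this, mul_one]

lemma Ex_WW (u v : V) (h : Disjoint (X.P u) (X.P v)) :
    Ex (fun ω => X.W ω u * X.W ω v) = X.w0 ^ 2 := by
  have h1 : ∀ ω, X.W ω u * X.W ω v = X.w0 ^ 2 * ∏ z ∈ X.P u ∪ X.P v, X.g ω z := by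
    intro ω
    rw [Finset.prod_union h, X.hW ω u, X.hW ω v]
    unfold g
    ring
  rw [Ex_congr h1, Ex_mul_left, X.Ex_prod_g _ _ rfl, mul_one]

/-- integrate out the coin of `y` -/
lemma Ex_mul_f (y : V) (A : (V → Fin X.M) → ℝ) (hA : ∀ ω c, A (Function.update ω y c) = A ω) :
    Ex (fun ω => A ω * X.f ω y) = Ex (fun ω => A ω * pr X.M X.cap (X.W ω y)) :=
  Ex_cond y A (fun ω => X.W ω y) (fi X.M X.cap) (pr X.M X.cap) hA
    (fun ω c => X.W_update ω y c y le_rfl) (fun _ => Ex_fi X.hM X.hc0 X.hc1 _)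

lemma Ex_f (y : V) : Ex (fun ω => X.f ω y) = Ex (fun ω => pr X.M X.cap (X.W ω y)) := by
  have := X.Ex_mul_f y (fun _ => 1) (fun _ _ => rfl)
  simpa using this

lemma Ex_f_le (y : V) : Ex (fun ω => X.f ω y) ≤ X.w0 := by
  rw [X.Ex_f, ← X.Ex_W y]
  exact Ex_mono (fun ω => pr_le_self X.hM X.hc0 (X.W_nonneg ω y))

lemma Ex_ff_le_cap' (u v : V) (hne : u ≠ v) (hl : X.l v ≤ X.l u) :
    Ex (fun ω => X.f ω u * X.f ω v) ≤ X.cap * X.w0 := by
  rw [X.Ex_mul_f v (fun ω => X.f ω u) (fun ω c => X.f_update ω v c u hl hne)]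
  calc Ex (fun ω => X.f ω u * pr X.M X.cap (X.W ω v)) ≤ Ex (fun ω => X.cap * X.f ω u) := by
        refine Ex_mono (fun ω => ?_)
        rw [mul_comm]
        exact mul_le_mul_of_nonneg_right (pr_le_cap X.hM X.hc0 _) (X.f_nonneg ω u)
    _ = X.cap * Ex (fun ω => X.f ω u) := Ex_mul_left _ _
    _ ≤ X.cap * X.w0 := mul_le_mul_of_nonneg_left (X.Ex_f_le u) X.hc0

lemma Ex_ff_le_cap (u v : V) (hne : u ≠ v) :
    Ex (fun ω => X.f ω u * X.f ω v) ≤ X.cap * X.w0 := by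
  rcases le_total (X.l v) (X.l u) with h | h
  · exact X.Ex_ff_le_cap' u v hne h
  · rw [Ex_congr (fun ω => mul_comm _ _)]
    exact X.Ex_ff_le_cap' v u hne.symm h

lemma Ex_ff_le_flat (u v : V) (hne : u ≠ v) (hl : X.l u = X.l v)
    (h : Disjoint (X.P u) (X.P v)) :
    Ex (fun ω => X.f ω u * X.f ω v) ≤ X.w0 ^ 2 := by
  rw [X.Ex_mul_f v (fun ω => X.f ω u) (fun ω c => X.f_update ω v c u hl.ge hne)]
  calc Ex (fun ω => X.f ω u * pr X.M X.cap (X.W ω v)) ≤ Ex (fun ω => X.W ω v * X.f ω u) := by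
        refine Ex_mono (fun ω => ?_)
        rw [mul_comm]
        exact mul_le_mul_of_nonneg_right (pr_le_self X.hM X.hc0 (X.W_nonneg ω v))
          (X.f_nonneg ω u)
    _ = Ex (fun ω => X.W ω v * pr X.M X.cap (X.W ω u)) :=
        X.Ex_mul_f u (fun ω => X.W ω v) (fun ω c => X.W_update ω u c v hl.le)
    _ ≤ Ex (fun ω => X.W ω u * X.W ω v) := by
        refine Ex_mono (fun ω => ?_)
        rw [mul_comm]
        exact mul_le_mul_of_nonneg_right (pr_le_self X.hM X.hc0 (X.W_nonneg ω u))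
          (X.W_nonneg ω v)
    _ = X.w0 ^ 2 := X.Ex_WW u v h

lemma min_ge (L : ℝ) (hL : 0 < L) (hcap : X.cap = X.w0 * Real.exp L) (ω : V → Fin X.M) (v : V) :
    X.W ω v - (2 / L) * ∑ u ∈ X.P v, X.W ω u * X.W ω v ≤ min (X.W ω v) X.cap := by
  have hS : 0 ≤ ∑ u ∈ X.P v, X.W ω u := Finset.sum_nonneg (fun u _ => X.W_nonneg ω u)
  have hv := X.W_nonneg ω v
  rw [← Finset.sum_mul]
  by_cases h : X.W ω v ≤ X.cap
  · rw [min_eq_left h]
    have : 0 ≤ (2 / L) * ((∑ u ∈ X.P v, X.W ω u) * X.W ω v) := by positivity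
    linarith
  · push Not at h
    rw [min_eq_right h.le]
    have h1 : X.W ω v ≤ X.w0 * Real.exp (2 * ∑ u ∈ X.P v, X.W ω u) := by
      rw [X.hW ω v, Finset.mul_sum, Real.exp_sum]
      refine mul_le_mul_of_nonneg_left ?_ X.hw0
      exact Finset.prod_le_prod (fun u _ => gm_nonneg X.hM X.hc0 X.hc1 _ _)
        (fun u _ => gm_le_exp X.hM X.hc0 X.hc1 (X.W_nonneg ω u) _)
    have h2 : X.w0 * Real.exp L < X.w0 * Real.exp (2 * ∑ u ∈ X.P v, X.W ω u) := by
      rw [← hcap]; linarith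
    have h3 : L < 2 * ∑ u ∈ X.P v, X.W ω u := by
      have := lt_of_mul_lt_mul_left h2 X.hw0
      exact Real.exp_lt_exp.1 this
    have h4 : X.W ω v ≤ (2 / L) * ((∑ u ∈ X.P v, X.W ω u) * X.W ω v) := by
      have : (2 / L) * ((∑ u ∈ X.P v, X.W ω u) * X.W ω v) =
          ((2 * ∑ u ∈ X.P v, X.W ω u) / L) * X.W ω v := by ring
      rw [this]
      refine le_mul_of_one_le_left hv ?_
      rw [le_div_iff₀ hL]; linarith
    linarith [X.hc0]

lemma Ex_f_ge (L : ℝ) (hL : 0 < L) (hcap : X.cap = X.w0 * Real.exp L) (v : V) (D : ℕ)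
    (hD : (X.P v).card ≤ D) (hdis : ∀ u ∈ X.P v, Disjoint (X.P u) (X.P v)) :
    X.w0 - (2 / L) * (D * X.w0 ^ 2) - 1 / X.M ≤ Ex (fun ω => X.f ω v) := by
  rw [X.Ex_f]
  have h1 : Ex (fun ω => X.W ω v - (2 / L) * ∑ u ∈ X.P v, X.W ω u * X.W ω v - 1 / X.M) ≤
      Ex (fun ω => pr X.M X.cap (X.W ω v)) := by
    refine Ex_mono (fun ω => ?_)
    have a1 := X.min_ge L hL hcap ω v
    have a2 := min_sub_le_pr (cap := X.cap) X.hM (X.W ω v)
    linarith
  refine le_trans ?_ h1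
  rw [Ex_sub, Ex_sub, Ex_const, Ex_mul_left, Ex_sum, X.Ex_W,
    Finset.sum_congr rfl (fun u hu => X.Ex_WW u v (hdis u hu)), Finset.sum_const, nsmul_eq_mul]
  have h2 : ((X.P v).card : ℝ) ≤ D := by exact_mod_cast hD
  have h3 : (2 / L) * (((X.P v).card : ℝ) * X.w0 ^ 2) ≤ (2 / L) * (D * X.w0 ^ 2) := by
    gcongr
  linarith

/-- `v` fires -/
def fires (ω : V → Fin X.M) (v : V) : Prop := (ω v).val < thr X.M X.cap (X.W ω v)

lemma f_eq (ω : V → Fin X.M) (v : V) : X.f ω v = if X.fires ω v then 1 else 0 := by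
  unfold f fi fires
  congr

lemma not_fires_of_parent (ω : V → Fin X.M) (v u : V) (hu : u ∈ X.P v) (h : X.fires ω u) :
    ¬ X.fires ω v := by
  have h0 : X.W ω v = 0 := by
    rw [X.hW ω v, Finset.prod_eq_zero hu, mul_zero]
    unfold gm
    exact if_pos h
  unfold fires
  rw [h0, thr_zero X.hc0]
  omega

/-- `v` is selected: it fires and none of its flat neighbours does -/
def sel (F : V → Finset V) (ω : V → Fin X.M) (v : V) : Prop :=
  X.fires ω v ∧ ∀ u ∈ F v, ¬ X.fires ω u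

lemma ind_sel_ge (F : V → Finset V) (ω : V → Fin X.M) (v : V) :
    X.f ω v - ∑ u ∈ F v, X.f ω u * X.f ω v ≤ if X.sel F ω v then 1 else 0 := by
  have hS : 0 ≤ ∑ u ∈ F v, X.f ω u * X.f ω v :=
    Finset.sum_nonneg (fun u _ => mul_nonneg (X.f_nonneg ω u) (X.f_nonneg ω v))
  by_cases h1 : X.fires ω v
  · by_cases h2 : ∀ u ∈ F v, ¬ X.fires ω u
    · rw [if_pos ⟨h1, h2⟩, X.f_eq ω v, if_pos h1]
      rw [X.f_eq ω v, if_pos h1] at hS
      linarith
    · rw [if_neg (fun h => h2 h.2)]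
      push Not at h2
      obtain ⟨u, hu, hf⟩ := h2
      have h3 : X.f ω u * X.f ω v ≤ ∑ u ∈ F v, X.f ω u * X.f ω v :=
        Finset.single_le_sum (f := fun u => X.f ω u * X.f ω v)
          (fun u _ => mul_nonneg (X.f_nonneg ω u) (X.f_nonneg ω v)) hu
      rw [X.f_eq ω u, if_pos hf, one_mul] at h3
      linarith
  · rw [if_neg (fun h => h1 h.1), X.f_eq ω v, if_neg h1]
    simp

lemma ind_sel_le (F : V → Finset V) (ω : V → Fin X.M) (v : V) :
    (if X.sel F ω v then (1 : ℝ) else 0) ≤ X.f ω v := by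
  split_ifs with h
  · rw [X.f_eq, if_pos h.1]
  · exact X.f_nonneg ω v

/-- one sample covers a fair share of any set, in the exponential moment sense -/
lemma exp_moment (F : V → Finset V) (D t : ℕ)
    (hsel : ∀ v, X.w0 / 2 ≤ Ex (fun ω => if X.sel F ω v then (1 : ℝ) else 0))
    (lam : ℝ) (hlam0 : 0 ≤ lam) (hlam : lam * (1 + D * X.cap) ≤ 1 / 2)
    (Y : Finset V) (hY : Y.card ≤ D) (ht : t ≤ Y.card) :
    Ex (fun ω => Real.exp (-(lam * ((Y.filter (X.sel F ω)).card : ℝ)))) ≤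
      1 - lam * t * X.w0 / 4 := by
  have hcard : ∀ ω, ((Y.filter (X.sel F ω)).card : ℝ) =
      ∑ v ∈ Y, if X.sel F ω v then (1 : ℝ) else 0 := by
    intro ω
    rw [Finset.card_filter]
    push_cast
    rfl
  have h1 : ∀ ω, Real.exp (-(lam * ((Y.filter (X.sel F ω)).card : ℝ))) ≤
      1 - lam * (∑ v ∈ Y, if X.sel F ω v then (1 : ℝ) else 0) +
        lam ^ 2 / 2 * ∑ u ∈ Y, ∑ v ∈ Y, X.f ω u * X.f ω v := by
    intro ω
    refine (exp_neg_le_quad (by positivity)).trans ?_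
    rw [← Finset.sum_mul_sum, ← hcard]
    have a0 : (0 : ℝ) ≤ ((Y.filter (X.sel F ω)).card : ℝ) := Nat.cast_nonneg _
    have a1 : ((Y.filter (X.sel F ω)).card : ℝ) ≤ ∑ v ∈ Y, X.f ω v := by
      rw [hcard]
      exact Finset.sum_le_sum (fun v _ => X.ind_sel_le F ω v)
    have a2 : ((Y.filter (X.sel F ω)).card : ℝ) ^ 2 ≤ (∑ v ∈ Y, X.f ω v) * ∑ v ∈ Y, X.f ω v := by
      rw [← sq]
      exact pow_le_pow_left₀ a0 a1 2
    have a3 : (lam * ((Y.filter (X.sel F ω)).card : ℝ)) ^ 2 / 2 =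
        lam ^ 2 / 2 * ((Y.filter (X.sel F ω)).card : ℝ) ^ 2 := by ring
    rw [a3]
    have a4 := mul_le_mul_of_nonneg_left a2 (show 0 ≤ lam ^ 2 / 2 by positivity)
    linarith
  refine (Ex_mono h1).trans ?_
  rw [Ex_add, Ex_sub, Ex_const, Ex_mul_left, Ex_mul_left, Ex_sum, Ex_sum]
  have hYD : (Y.card : ℝ) ≤ D := by exact_mod_cast hY
  have htY : (t : ℝ) ≤ Y.card := by exact_mod_cast ht
  have b1 : (Y.card : ℝ) * (X.w0 / 2) ≤
      ∑ v ∈ Y, Ex (fun ω => if X.sel F ω v then (1 : ℝ) else 0) := by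
    rw [← nsmul_eq_mul, ← Finset.sum_const]
    exact Finset.sum_le_sum (fun v _ => hsel v)
  have b2 : ∑ u ∈ Y, Ex (fun ω => ∑ v ∈ Y, X.f ω u * X.f ω v) ≤
      (Y.card : ℝ) * (X.w0 * (1 + D * X.cap)) := by
    rw [← nsmul_eq_mul, ← Finset.sum_const]
    refine Finset.sum_le_sum (fun u hu => ?_)
    rw [Ex_sum, ← Finset.add_sum_erase _ _ hu]
    have c1 : Ex (fun ω => X.f ω u * X.f ω u) ≤ X.w0 := by
      refine le_trans (le_of_eq (Ex_congr (fun ω => ?_))) (X.Ex_f_le u)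
      exact fi_mul_self _ _
    have c2 : ∑ v ∈ Y.erase u, Ex (fun ω => X.f ω u * X.f ω v) ≤ D * (X.cap * X.w0) := by
      calc ∑ v ∈ Y.erase u, Ex (fun ω => X.f ω u * X.f ω v)
          ≤ ∑ _v ∈ Y.erase u, X.cap * X.w0 :=
            Finset.sum_le_sum (fun v hv => X.Ex_ff_le_cap u v (Finset.ne_of_mem_erase hv).symm)
        _ = ((Y.erase u).card : ℝ) * (X.cap * X.w0) := by rw [Finset.sum_const, nsmul_eq_mul]
        _ ≤ D * (X.cap * X.w0) := by
            refine mul_le_mul_of_nonneg_right ?_ (mul_nonneg X.hc0 X.hw0)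
            refine le_trans ?_ hYD
            exact_mod_cast Finset.card_le_card (Finset.erase_subset _ _)
    nlinarith
  have hw := X.hw0
  have hYw : 0 ≤ lam * ((Y.card : ℝ) * X.w0) := by positivity
  have b3 : lam ^ 2 / 2 * ∑ u ∈ Y, Ex (fun ω => ∑ v ∈ Y, X.f ω u * X.f ω v) ≤
      lam * ((Y.card : ℝ) * X.w0) / 4 := by
    calc lam ^ 2 / 2 * ∑ u ∈ Y, Ex (fun ω => ∑ v ∈ Y, X.f ω u * X.f ω v)
        ≤ lam ^ 2 / 2 * ((Y.card : ℝ) * (X.w0 * (1 + D * X.cap))) :=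
          mul_le_mul_of_nonneg_left b2 (by positivity)
      _ = (lam * (1 + D * X.cap)) * (lam * ((Y.card : ℝ) * X.w0)) / 2 := by ring
      _ ≤ (1 / 2) * (lam * ((Y.card : ℝ) * X.w0)) / 2 := by gcongr
      _ = _ := by ring
  have b4 := mul_le_mul_of_nonneg_left b1 hlam0
  have b5 : lam * t * X.w0 ≤ lam * ((Y.card : ℝ) * X.w0) := by
    rw [mul_assoc]
    gcongr
  nlinarith

lemma Ex_sel_ge (F : V → Finset V) (D s : ℕ) (τ : ℝ) (hτ : 0 < τ) (hw : X.w0 * D = τ)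
    (hcap : X.cap = X.w0 * Real.exp (8 * τ)) (hM : 1 / (X.M : ℝ) ≤ X.w0 / 8)
    (hs : 8 * τ ≤ s) (v : V)
    (hD : (X.P v).card ≤ D) (hdis : ∀ u ∈ X.P v, Disjoint (X.P u) (X.P v))
    (hF : s * (F v).card ≤ D)
    (hF' : ∀ u ∈ F v, u ≠ v ∧ X.l u = X.l v ∧ Disjoint (X.P u) (X.P v)) :
    X.w0 / 2 ≤ Ex (fun ω => if X.sel F ω v then (1 : ℝ) else 0) := by
  refine le_trans ?_ (Ex_mono (fun ω => X.ind_sel_ge F ω v))
  rw [Ex_sub, Ex_sum]
  have h1 := X.Ex_f_ge (8 * τ) (by positivity) hcap v D hD hdis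
  have h2 : (2 / (8 * τ)) * (D * X.w0 ^ 2) = X.w0 / 4 := by
    have : (D : ℝ) * X.w0 ^ 2 = τ * X.w0 := by rw [← hw]; ring
    rw [this]; field_simp; ring
  have h3 : ∑ u ∈ F v, Ex (fun ω => X.f ω u * X.f ω v) ≤ ((F v).card : ℝ) * X.w0 ^ 2 := by
    rw [← nsmul_eq_mul, ← Finset.sum_const]
    exact Finset.sum_le_sum (fun u hu =>
      X.Ex_ff_le_flat u v (hF' u hu).1 (hF' u hu).2.1 (hF' u hu).2.2)
  have h4 : ((F v).card : ℝ) * X.w0 ≤ 1 / 8 := by
    have a1 : (s : ℝ) * (F v).card ≤ D := by exact_mod_cast hF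
    have a2 : 8 * τ * (F v).card ≤ D := le_trans (by gcongr) a1
    have a3 : 8 * τ * ((F v).card * X.w0) ≤ τ := by
      calc 8 * τ * ((F v).card * X.w0) = (8 * τ * (F v).card) * X.w0 := by ring
        _ ≤ D * X.w0 := mul_le_mul_of_nonneg_right a2 X.hw0
        _ = τ := by rw [← hw]; ring
    by_contra hcon
    push Not at hcon
    nlinarith
  have h5 : ((F v).card : ℝ) * X.w0 ^ 2 ≤ X.w0 / 8 := by
    have := mul_le_mul_of_nonneg_right h4 X.hw0
    nlinarith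
  linarith

end Proc

end Pool.Agent.H41Z.TD
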