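import Mathlib

set_option autoImplicit false

/-! Deterministic combinatorial lemmas: orientations of degenerate graphs, Lipschitz height
functions, defective partitions and cone counting. -/

namespace Pool.Agent.H41Z.TD

open Finset
open scoped Classical

variable {V : Type} [Fintype V]

/-- every nonempty vertex set has a vertex with at most `d` neighbours inside it -/
def Degen (G : SimpleGraph V) (d : ℕ) : Prop :=
  ∀ S : Finset V, S.Nonempty → ∃ v ∈ S, (S.filter (G.Adj v)).card ≤ d

/-- neighbours as a finset -/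
noncomputable def nb (G : SimpleGraph V) (v : V) : Finset V := univ.filter (G.Adj v)

lemma mem_nb {G : SimpleGraph V} {v u : V} : u ∈ nb G v ↔ G.Adj v u := by
  simp [nb]

lemma exists_par (G : SimpleGraph V) (d : ℕ) (hG : Degen G d) :
    ∃ par : V → Finset V, (∀ v, (par v).card ≤ d) ∧
      ∀ u v, G.Adj u v → u ∈ par v ∨ v ∈ par u := by
  have key : ∀ n : ℕ, ∀ S : Finset V, S.card = n → ∃ par : V → Finset V,
      (∀ v, (par v).card ≤ d) ∧ ∀ u ∈ S, ∀ v ∈ S, G.Adj u v → u ∈ par v ∨ v ∈ par u := by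
    intro n
    induction n with
    | zero =>
      intro S hS
      rw [Finset.card_eq_zero] at hS
      subst hS
      exact ⟨fun _ => ∅, by simp, by simp⟩
    | succ n ih =>
      intro S hS
      obtain ⟨w, hw, hwd⟩ := hG S (by rw [← Finset.card_pos]; omega)
      obtain ⟨par, h1, h2⟩ := ih (S.erase w) (by rw [Finset.card_erase_of_mem hw]; omega)
      refine ⟨Function.update par w (S.filter (G.Adj w)), ?_, ?_⟩
      · intro v
        by_cases hv : v = w
        · subst hv; simpa using hwd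
        · rw [Function.update_of_ne hv]; exact h1 v
      · intro u hu v hv huv
        by_cases hvw : v = w
        · subst hvw
          left
          simp [hu, huv.symm]
        · by_cases huw : u = w
          · subst huw
            right
            simp [hv, huv]
          · rw [Function.update_of_ne hvw, Function.update_of_ne huw]
            exact h2 u (by simp [hu, huw]) v (by simp [hv, hvw]) huv
  obtain ⟨par, h1, h2⟩ := key _ univ rfl
  exact ⟨par, h1, fun u v huv => h2 u (mem_univ _) v (mem_univ _) huv⟩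

/-- proper colouring with colours below `k` -/
def Col (G : SimpleGraph V) (k : ℕ) : Prop :=
  ∃ c : V → ℕ, (∀ v, c v < k) ∧ ∀ u v, G.Adj u v → c u ≠ c v

lemma col_of_degen (G : SimpleGraph V) (d : ℕ) (hG : Degen G d) : Col G (d + 1) := by
  have key : ∀ n : ℕ, ∀ S : Finset V, S.card = n → ∃ c : V → ℕ,
      (∀ v, c v < d + 1) ∧ ∀ u ∈ S, ∀ v ∈ S, G.Adj u v → c u ≠ c v := by
    intro n
    induction n with
    | zero =>
      intro S hS
      rw [Finset.card_eq_zero] at hS
      subst hS
      exact ⟨fun _ => 0, by simp, by simp⟩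
    | succ n ih =>
      intro S hS
      obtain ⟨w, hw, hwd⟩ := hG S (by rw [← Finset.card_pos]; omega)
      obtain ⟨c, h1, h2⟩ := ih (S.erase w) (by rw [Finset.card_erase_of_mem hw]; omega)
      have hlt : ((S.filter (G.Adj w)).image c).card < (Finset.range (d + 1)).card := by
        rw [Finset.card_range]
        exact lt_of_le_of_lt (Finset.card_image_le.trans hwd) (Nat.lt_succ_self d)
      obtain ⟨a, ha, ha'⟩ := Finset.exists_mem_notMem_of_card_lt_card hlt
      refine ⟨Function.update c w a, ?_, ?_⟩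
      · intro v
        by_cases hv : v = w
        · subst hv; simpa using ha
        · rw [Function.update_of_ne hv]; exact h1 v
      · intro u hu v hv huv
        by_cases hvw : v = w
        · subst hvw
          have huw : u ≠ v := huv.ne
          rw [Function.update_of_ne huw, Function.update_self]
          intro h
          exact ha' (Finset.mem_image.2 ⟨u, by simp [hu, huv.symm], h⟩)
        · by_cases huw : u = w
          · subst huw
            rw [Function.update_of_ne hvw, Function.update_self]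
            intro h
            exact ha' (Finset.mem_image.2 ⟨v, by simp [hv, huv], h.symm⟩)
          · rw [Function.update_of_ne hvw, Function.update_of_ne huw]
            exact h2 u (by simp [hu, huw]) v (by simp [hv, hvw]) huv
  obtain ⟨c, h1, h2⟩ := key _ univ rfl
  exact ⟨c, h1, fun u v huv => h2 u (mem_univ _) v (mem_univ _) huv⟩

/-- a height function all of whose positive values are forced -/
def Supported (G : SimpleGraph V) (d J : ℕ) (h : V → ℕ) : Prop :=
  ∀ v, h v = 0 ∨ 9 * d * 2 ^ (h v - 1) < ∑ u ∈ nb G v, 2 ^ (min (h u) (h v - 1)) ∨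
    ∃ u, G.Adj v u ∧ h v + J ≤ h u

lemma supported_bound (G : SimpleGraph V) (d J Δ : ℕ) (hd : 1 ≤ d) (hG : Degen G d)
    (hΔ : ∀ v, (nb G v).card ≤ Δ) (hJ : 4 * Δ ≤ 2 ^ J) (h : V → ℕ) (hs : Supported G d J h) :
    ∑ v, 2 ^ h v ≤ 2 * Fintype.card V := by
  obtain ⟨par, hp1, hp2⟩ := exists_par G d hG
  have hJpos : 0 < 2 ^ J := by positivity
  -- pointwise inequality, multiplied by `4 d 2^J`
  have hpt : ∀ v, 4 * d * 2 ^ J * 2 ^ h v ≤ 4 * d * 2 ^ J +
      2 ^ J * (∑ u ∈ univ.filter (fun u => v ∈ par u), 2 ^ h u) +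
      4 * d * ∑ u ∈ nb G v, 2 ^ h u := by
    intro v
    rcases hs v with h0 | h1 | ⟨u, hu, h2⟩
    · rw [h0]; simp only [pow_zero, mul_one]; omega
    · by_cases h0 : h v = 0
      · rw [h0]; simp only [pow_zero, mul_one]; omega
      obtain ⟨k, hk⟩ : ∃ k, h v = k + 1 := ⟨h v - 1, by omega⟩
      rw [hk] at h1 ⊢
      simp only [Nat.add_sub_cancel] at h1
      have hsub : nb G v ⊆ par v ∪ univ.filter (fun u => v ∈ par u) := by
        intro u hu
        rw [mem_nb] at hu
        rcases hp2 v u hu with h | h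
        · simp [h]
        · simp [h]
      have e1 : ∑ u ∈ nb G v, 2 ^ (min (h u) k) ≤
          ∑ u ∈ par v, 2 ^ (min (h u) k) +
            ∑ u ∈ univ.filter (fun u => v ∈ par u), 2 ^ (min (h u) k) := by
        refine (Finset.sum_le_sum_of_subset hsub).trans ?_
        rw [← Finset.sum_union_inter]
        omega
      have e2 : ∑ u ∈ par v, 2 ^ (min (h u) k) ≤ d * 2 ^ k := by
        calc ∑ u ∈ par v, 2 ^ (min (h u) k) ≤ ∑ _u ∈ par v, 2 ^ k :=
              Finset.sum_le_sum (fun u _ => Nat.pow_le_pow_right (by norm_num) (min_le_right _ _))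
          _ = (par v).card * 2 ^ k := by simp
          _ ≤ d * 2 ^ k := Nat.mul_le_mul_right _ (hp1 v)
      have e3 : ∑ u ∈ univ.filter (fun u => v ∈ par u), 2 ^ (min (h u) k) ≤
          ∑ u ∈ univ.filter (fun u => v ∈ par u), 2 ^ h u :=
        Finset.sum_le_sum (fun u _ => Nat.pow_le_pow_right (by norm_num) (min_le_left _ _))
      have e4 : 4 * d * 2 ^ (k + 1) ≤ ∑ u ∈ univ.filter (fun u => v ∈ par u), 2 ^ h u := by
        have : 4 * d * 2 ^ (k + 1) = 8 * (d * 2 ^ k) := by ring
        have h9 : 9 * d * 2 ^ k = 9 * (d * 2 ^ k) := by ring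
        omega
      calc 4 * d * 2 ^ J * 2 ^ (k + 1) = 2 ^ J * (4 * d * 2 ^ (k + 1)) := by ring
        _ ≤ 2 ^ J * (∑ u ∈ univ.filter (fun u => v ∈ par u), 2 ^ h u) :=
            Nat.mul_le_mul_left _ e4
        _ ≤ _ := by omega
    · have e1 : 2 ^ J * 2 ^ h v ≤ ∑ u ∈ nb G v, 2 ^ h u := by
        calc 2 ^ J * 2 ^ h v = 2 ^ (h v + J) := by ring
          _ ≤ 2 ^ h u := Nat.pow_le_pow_right (by norm_num) h2
          _ ≤ ∑ u ∈ nb G v, 2 ^ h u :=
            Finset.single_le_sum (f := fun u => 2 ^ h u) (fun _ _ => Nat.zero_le _) (mem_nb.2 hu)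
      calc 4 * d * 2 ^ J * 2 ^ h v = 4 * d * (2 ^ J * 2 ^ h v) := by ring
        _ ≤ 4 * d * ∑ u ∈ nb G v, 2 ^ h u := Nat.mul_le_mul_left _ e1
        _ ≤ _ := by omega
  set Ψ := ∑ v, 2 ^ h v with hΨ
  have s1 : ∑ v, ∑ u ∈ univ.filter (fun u => v ∈ par u), 2 ^ h u ≤ d * Ψ := by
    calc ∑ v, ∑ u ∈ univ.filter (fun u => v ∈ par u), 2 ^ h u
        = ∑ u, ∑ _v ∈ par u, 2 ^ h u := by
          rw [Finset.sum_comm' (t' := univ) (s' := fun u => par u)]
          intro v u; simp
      _ ≤ ∑ u, d * 2 ^ h u := by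
          refine Finset.sum_le_sum (fun u _ => ?_)
          rw [Finset.sum_const, smul_eq_mul]
          exact Nat.mul_le_mul_right _ (hp1 u)
      _ = d * Ψ := by rw [hΨ, Finset.mul_sum]
  have s2 : ∑ v, ∑ u ∈ nb G v, 2 ^ h u ≤ Δ * Ψ := by
    calc ∑ v, ∑ u ∈ nb G v, 2 ^ h u
        = ∑ u, ∑ _v ∈ nb G u, 2 ^ h u := by
          rw [Finset.sum_comm' (t' := univ) (s' := fun u => nb G u)]
          intro v u; simp [mem_nb, G.adj_comm]
      _ ≤ ∑ u, Δ * 2 ^ h u := by
          refine Finset.sum_le_sum (fun u _ => ?_)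
          rw [Finset.sum_const, smul_eq_mul]
          exact Nat.mul_le_mul_right _ (hΔ u)
      _ = Δ * Ψ := by rw [hΨ, Finset.mul_sum]
  have s3 : 4 * d * 2 ^ J * Ψ ≤ Fintype.card V * (4 * d * 2 ^ J) +
      2 ^ J * (∑ v, ∑ u ∈ univ.filter (fun u => v ∈ par u), 2 ^ h u) +
      4 * d * (∑ v, ∑ u ∈ nb G v, 2 ^ h u) := by
    have s3 := Finset.sum_le_sum (s := univ) (fun v _ => hpt v)
    rw [Finset.sum_add_distrib, Finset.sum_add_distrib, Finset.sum_const, smul_eq_mul,
      Finset.card_univ] at s3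
    rw [hΨ, Finset.mul_sum, Finset.mul_sum, Finset.mul_sum]
    exact s3
  have s4 : 2 ^ J * (∑ v, ∑ u ∈ univ.filter (fun u => v ∈ par u), 2 ^ h u) ≤
      d * 2 ^ J * Ψ := by
    calc _ ≤ 2 ^ J * (d * Ψ) := Nat.mul_le_mul_left _ s1
      _ = _ := by ring
  have s5 : 4 * d * (∑ v, ∑ u ∈ nb G v, 2 ^ h u) ≤ d * 2 ^ J * Ψ := by
    calc _ ≤ 4 * d * (Δ * Ψ) := Nat.mul_le_mul_left _ s2
      _ = d * (4 * Δ) * Ψ := by ring
      _ ≤ d * 2 ^ J * Ψ := Nat.mul_le_mul_right _ (Nat.mul_le_mul_left _ hJ)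
  have hpos : 0 < d * 2 ^ J := Nat.mul_pos hd hJpos
  have s6 : (d * 2 ^ J) * Ψ ≤ (d * 2 ^ J) * (2 * Fintype.card V) := by
    have a1 : 4 * d * 2 ^ J * Ψ = 4 * (d * 2 ^ J * Ψ) := by ring
    have a2 : Fintype.card V * (4 * d * 2 ^ J) = 2 * ((d * 2 ^ J) * (2 * Fintype.card V)) := by
      ring
    omega
  exact Nat.le_of_mul_le_mul_left s6 hpos

/-- Lipschitz height function with weighted degree bound. -/
theorem exists_height (G : SimpleGraph V) (d J Δ : ℕ) (hd : 1 ≤ d) (hG : Degen G d)
    (hΔ : ∀ v, (nb G v).card ≤ Δ) (hJ : 4 * Δ ≤ 2 ^ J) :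
    ∃ h : V → ℕ, (∀ v, ∑ u ∈ nb G v, 2 ^ (min (h u) (h v)) ≤ 9 * d * 2 ^ h v) ∧
      ∀ u v, G.Adj u v → h v ≤ h u + J := by
  have hbdd : BddAbove {n : ℕ | ∃ h : V → ℕ, Supported G d J h ∧ ∑ v, h v = n} := by
    refine ⟨2 * Fintype.card V, ?_⟩
    rintro n ⟨h, hs, rfl⟩
    refine le_trans (Finset.sum_le_sum (fun v _ => ?_)) (supported_bound G d J Δ hd hG hΔ hJ h hs)
    exact (Nat.lt_two_pow_self).le
  have hne : {n : ℕ | ∃ h : V → ℕ, Supported G d J h ∧ ∑ v, h v = n}.Nonempty :=
    ⟨_, fun _ => 0, fun v => Or.inl rfl, rfl⟩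
  obtain ⟨h, hs, hsum⟩ := Nat.sSup_mem hne hbdd
  have hmax : ∀ v, ¬ Supported G d J (Function.update h v (h v + 1)) := by
    intro v hv
    have h1 : ∑ w, Function.update h v (h v + 1) w ≤ ∑ w, h w := by
      rw [hsum]
      exact le_csSup hbdd ⟨_, hv, rfl⟩
    rw [Finset.sum_update_of_mem (mem_univ v)] at h1
    rw [← Finset.add_sum_erase _ _ (mem_univ v), Finset.sdiff_singleton_eq_erase] at h1
    omega
  have hmono : ∀ v w, h w ≤ Function.update h v (h v + 1) w := by
    intro v w
    by_cases hw : w = v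
    · subst hw; simp
    · rw [Function.update_of_ne hw]
  have hoth : ∀ v w, w ≠ v → (Function.update h v (h v + 1) w = 0 ∨
      9 * d * 2 ^ (Function.update h v (h v + 1) w - 1) <
        ∑ u ∈ nb G w, 2 ^ (min (Function.update h v (h v + 1) u)
          (Function.update h v (h v + 1) w - 1)) ∨
      ∃ u, G.Adj w u ∧ Function.update h v (h v + 1) w + J ≤ Function.update h v (h v + 1) u) := by
    intro v w hw
    rw [Function.update_of_ne hw]
    rcases hs w with h0 | h1 | ⟨u, hu, h2⟩
    · exact Or.inl h0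
    · right; left
      refine lt_of_lt_of_le h1 (Finset.sum_le_sum (fun u _ => ?_))
      exact Nat.pow_le_pow_right (by norm_num) (min_le_min_right _ (hmono v u))
    · right; right
      exact ⟨u, hu, h2.trans (hmono v u)⟩
  refine ⟨h, ?_, ?_⟩
  · intro v
    by_contra hcon
    push Not at hcon
    apply hmax v
    intro w
    by_cases hw : w = v
    · subst hw
      right; left
      rw [Function.update_self, Nat.add_sub_cancel]
      refine lt_of_lt_of_le hcon (Finset.sum_le_sum (fun u _ => ?_))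
      exact Nat.pow_le_pow_right (by norm_num) (min_le_min_right _ (hmono w u))
    · exact hoth v w hw
  · intro u v huv
    by_contra hcon
    push Not at hcon
    apply hmax u
    intro w
    by_cases hw : w = u
    · subst hw
      right; right
      refine ⟨v, huv, ?_⟩
      rw [Function.update_self, Function.update_of_ne huv.ne']
      omega
    · exact hoth u w hw

/-- Defective partition of a graph of bounded degree. -/
theorem exists_defective (F : SimpleGraph V) (D s : ℕ) (hs : 1 ≤ s)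
    (hD : ∀ v, (nb F v).card ≤ D) :
    ∃ σ : V → ℕ, (∀ v, σ v < s) ∧
      ∀ v, s * ((nb F v).filter (fun u => σ u = σ v)).card ≤ D := by
  have : Nonempty (Fin s) := ⟨⟨0, hs⟩⟩
  let M : (V → Fin s) → ℕ := fun σ => ∑ a, ∑ b, if F.Adj a b ∧ σ b = σ a then 1 else 0
  obtain ⟨σ, -, hσ⟩ := Finset.exists_min_image (univ : Finset (V → Fin s)) M univ_nonempty
  refine ⟨fun v => σ v, fun v => (σ v).2, ?_⟩
  intro v
  let cnt : Fin s → ℕ := fun c => ((nb F v).filter (fun u => σ u = c)).card
  have hsum : ∑ c, cnt c ≤ D := by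
    have := Finset.card_eq_sum_card_fiberwise (s := nb F v) (t := (univ : Finset (Fin s)))
      (f := σ) (fun _ _ => by simp)
    rw [← this]
    exact hD v
  have hdec : ∀ τ : V → Fin s, (∀ w, w ≠ v → τ w = σ w) →
      M τ = 2 * cnt (τ v) + ∑ a ∈ univ.erase v, ∑ b ∈ univ.erase v,
        if F.Adj a b ∧ σ b = σ a then 1 else 0 := by
    intro τ hτ
    have c1 : ∑ b, (if F.Adj v b ∧ τ b = τ v then 1 else 0) = cnt (τ v) := by
      simp only [cnt]
      rw [Finset.card_filter, nb, Finset.sum_filter]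
      refine Finset.sum_congr rfl (fun b _ => ?_)
      by_cases hb : F.Adj v b
      · rw [hτ b hb.ne']; simp [hb]
      · simp [hb]
    have c2 : ∑ a ∈ univ.erase v, (if F.Adj a v ∧ τ v = τ a then 1 else 0) = cnt (τ v) := by
      rw [← c1, ← Finset.add_sum_erase _ _ (mem_univ v)]
      simp only [F.irrefl, false_and, if_false, zero_add]
      refine Finset.sum_congr rfl (fun b _ => ?_)
      simp only [F.adj_comm b v, eq_comm]
    have c3 : ∀ a ∈ univ.erase v, ∑ b, (if F.Adj a b ∧ τ b = τ a then 1 else 0) =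
        (if F.Adj a v ∧ τ v = τ a then 1 else 0) + ∑ b ∈ univ.erase v,
          if F.Adj a b ∧ σ b = σ a then 1 else 0 := by
      intro a ha
      rw [← Finset.add_sum_erase _ _ (mem_univ v)]
      congr 1
      refine Finset.sum_congr rfl (fun b hb => ?_)
      rw [hτ a (Finset.ne_of_mem_erase ha), hτ b (Finset.ne_of_mem_erase hb)]
    simp only [M]
    rw [← Finset.add_sum_erase _ _ (mem_univ v), c1, Finset.sum_congr rfl c3,
      Finset.sum_add_distrib, c2]
    ring
  have hle : ∀ c, cnt (σ v) ≤ cnt c := by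
    intro c
    have h1 := hσ (Function.update σ v c) (mem_univ _)
    rw [hdec σ (fun _ _ => rfl), hdec (Function.update σ v c)
      (fun w hw => Function.update_of_ne hw _ _), Function.update_self] at h1
    omega
  have hfin : s * cnt (σ v) ≤ ∑ c, cnt c := by
    calc s * cnt (σ v) = ∑ _c : Fin s, cnt (σ v) := by simp
      _ ≤ ∑ c, cnt c := Finset.sum_le_sum (fun c _ => hle c)
  have heq : ((nb F v).filter (fun u => (σ u : ℕ) = (σ v : ℕ))).card = cnt (σ v) := by
    simp only [cnt, Fin.val_inj]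
  rw [heq]
  exact hfin.trans hsum

omit [Fintype V] in
lemma sum_biUnion_le_nat {ι : Type} (s : Finset ι) (t : ι → Finset V) (f : V → ℕ) :
    ∑ v ∈ s.biUnion t, f v ≤ ∑ i ∈ s, ∑ v ∈ t i, f v := by
  induction s using Finset.induction_on with
  | empty => simp
  | insert i s hi ih =>
    rw [Finset.biUnion_insert, Finset.sum_insert hi]
    have := Finset.sum_union_inter (s₁ := t i) (s₂ := s.biUnion t) (f := f)
    omega

/-- neighbours that are not lower -/
noncomputable def upN (G : SimpleGraph V) (h : V → ℕ) (v : V) : Finset V :=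
  (nb G v).filter (fun u => h v ≤ h u)

lemma mem_upN {G : SimpleGraph V} {h : V → ℕ} {v u : V} :
    u ∈ upN G h v ↔ G.Adj v u ∧ h v ≤ h u := by
  simp [upN, mem_nb]

lemma card_upN (G : SimpleGraph V) (h : V → ℕ) (D : ℕ)
    (hW : ∀ v, ∑ u ∈ nb G v, 2 ^ (min (h u) (h v)) ≤ D * 2 ^ h v) (v : V) :
    (upN G h v).card ≤ D := by
  have h1 : (upN G h v).card * 2 ^ h v ≤ D * 2 ^ h v := by
    calc (upN G h v).card * 2 ^ h v = ∑ _u ∈ upN G h v, 2 ^ h v := by simp
      _ = ∑ u ∈ upN G h v, 2 ^ (min (h u) (h v)) := by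
          refine Finset.sum_congr rfl (fun u hu => ?_)
          rw [min_eq_right (mem_upN.1 hu).2]
      _ ≤ ∑ u ∈ nb G v, 2 ^ (min (h u) (h v)) :=
          Finset.sum_le_sum_of_subset (Finset.filter_subset _ _)
      _ ≤ D * 2 ^ h v := hW v
  exact Nat.le_of_mul_le_mul_right h1 (by positivity)

/-- vertices reachable by at most `k` non-descending steps -/
noncomputable def cone (G : SimpleGraph V) (h : V → ℕ) : ℕ → V → Finset V
  | 0, v => {v}
  | k + 1, v => insert v ((upN G h v).biUnion (cone G h k))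

lemma self_mem_cone (G : SimpleGraph V) (h : V → ℕ) (k : ℕ) (v : V) : v ∈ cone G h k v := by
  cases k <;> simp [cone]

lemma mem_cone_succ {G : SimpleGraph V} {h : V → ℕ} {k : ℕ} {v u x : V} (hu : u ∈ upN G h v)
    (hx : x ∈ cone G h k u) : x ∈ cone G h (k + 1) v := by
  simp only [cone, mem_insert, mem_biUnion]
  exact Or.inr ⟨u, hu, hx⟩

lemma cone_mono_succ (G : SimpleGraph V) (h : V → ℕ) :
    ∀ (k : ℕ) (v : V), cone G h k v ⊆ cone G h (k + 1) v := by
  intro k
  induction k with
  | zero =>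
    intro v x hx
    simp only [cone, mem_singleton] at hx
    subst hx
    exact self_mem_cone G h 1 x
  | succ k ih =>
    intro v x hx
    simp only [cone, mem_insert, mem_biUnion] at hx
    rcases hx with rfl | ⟨u, hu, hx⟩
    · exact self_mem_cone G h _ x
    · exact mem_cone_succ hu (ih u hx)

lemma cone_mono (G : SimpleGraph V) (h : V → ℕ) {k m : ℕ} (hkm : k ≤ m) (v : V) :
    cone G h k v ⊆ cone G h m v := by
  induction hkm with
  | refl => exact subset_rfl
  | step _ ih => exact ih.trans (cone_mono_succ G h _ v)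

lemma card_cone (G : SimpleGraph V) (h : V → ℕ) (D : ℕ) (hU : ∀ v, (upN G h v).card ≤ D) :
    ∀ (k : ℕ) (v : V), (cone G h k v).card ≤ (D + 1) ^ k := by
  intro k
  induction k with
  | zero => intro v; simp [cone]
  | succ k ih =>
    intro v
    have h1 : ((upN G h v).biUnion (cone G h k)).card ≤ D * (D + 1) ^ k := by
      refine Finset.card_biUnion_le.trans ?_
      calc ∑ u ∈ upN G h v, (cone G h k u).card ≤ ∑ _u ∈ upN G h v, (D + 1) ^ k :=
            Finset.sum_le_sum (fun u _ => ih u)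
        _ = (upN G h v).card * (D + 1) ^ k := by simp
        _ ≤ D * (D + 1) ^ k := Nat.mul_le_mul_right _ (hU v)
    have h2 : 1 ≤ (D + 1) ^ k := Nat.one_le_pow _ _ (by omega)
    calc (cone G h (k + 1) v).card ≤ ((upN G h v).biUnion (cone G h k)).card + 1 :=
          Finset.card_insert_le _ _
      _ ≤ D * (D + 1) ^ k + (D + 1) ^ k := by omega
      _ = (D + 1) ^ (k + 1) := by ring

lemma weight_cocone (G : SimpleGraph V) (h : V → ℕ) (D : ℕ)
    (hW : ∀ v, ∑ u ∈ nb G v, 2 ^ (min (h u) (h v)) ≤ D * 2 ^ h v) (x : V) :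
    ∀ k : ℕ, ∑ v ∈ univ.filter (fun v => x ∈ cone G h k v), 2 ^ h v ≤ (D + 1) ^ k * 2 ^ h x := by
  intro k
  induction k with
  | zero =>
    have : univ.filter (fun v => x ∈ cone G h 0 v) = {x} := by
      ext v; simp [cone, eq_comm]
    rw [this]; simp
  | succ k ih =>
    have hsub : univ.filter (fun v => x ∈ cone G h (k + 1) v) ⊆
        insert x ((univ.filter (fun u => x ∈ cone G h k u)).biUnion
          (fun u => univ.filter (fun v => u ∈ upN G h v))) := by
      intro v hv
      simp only [cone, mem_filter, mem_univ, true_and, mem_insert, mem_biUnion] at hv ⊢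
      rcases hv with rfl | ⟨u, hu, hx⟩
      · exact Or.inl rfl
      · exact Or.inr ⟨u, hx, hu⟩
    have h1 : ∀ u, ∑ v ∈ univ.filter (fun v => u ∈ upN G h v), 2 ^ h v ≤ D * 2 ^ h u := by
      intro u
      refine le_trans ?_ (hW u)
      calc ∑ v ∈ univ.filter (fun v => u ∈ upN G h v), 2 ^ h v
          = ∑ v ∈ univ.filter (fun v => u ∈ upN G h v), 2 ^ (min (h v) (h u)) := by
            refine Finset.sum_congr rfl (fun v hv => ?_)
            rw [min_eq_left (mem_upN.1 (mem_filter.1 hv).2).2]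
        _ ≤ ∑ v ∈ nb G u, 2 ^ (min (h v) (h u)) := by
            refine Finset.sum_le_sum_of_subset (fun v hv => ?_)
            exact mem_nb.2 (mem_upN.1 (mem_filter.1 hv).2).1.symm
    have h2 : ∑ v ∈ (univ.filter (fun u => x ∈ cone G h k u)).biUnion
          (fun u => univ.filter (fun v => u ∈ upN G h v)), 2 ^ h v ≤
        D * ((D + 1) ^ k * 2 ^ h x) := by
      refine (sum_biUnion_le_nat _ _ _).trans ?_
      calc ∑ u ∈ univ.filter (fun u => x ∈ cone G h k u),
            ∑ v ∈ univ.filter (fun v => u ∈ upN G h v), 2 ^ h v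
          ≤ ∑ u ∈ univ.filter (fun u => x ∈ cone G h k u), D * 2 ^ h u :=
            Finset.sum_le_sum (fun u _ => h1 u)
        _ = D * ∑ u ∈ univ.filter (fun u => x ∈ cone G h k u), 2 ^ h u := by
            rw [Finset.mul_sum]
        _ ≤ D * ((D + 1) ^ k * 2 ^ h x) := Nat.mul_le_mul_left _ ih
    have h3 : 2 ^ h x ≤ (D + 1) ^ k * 2 ^ h x :=
      Nat.le_mul_of_pos_left _ (by positivity)
    calc ∑ v ∈ univ.filter (fun v => x ∈ cone G h (k + 1) v), 2 ^ h v
        ≤ ∑ v ∈ insert x ((univ.filter (fun u => x ∈ cone G h k u)).biUnion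
          (fun u => univ.filter (fun v => u ∈ upN G h v))), 2 ^ h v :=
          Finset.sum_le_sum_of_subset hsub
      _ ≤ 2 ^ h x + ∑ v ∈ (univ.filter (fun u => x ∈ cone G h k u)).biUnion
          (fun u => univ.filter (fun v => u ∈ upN G h v)), 2 ^ h v := by
          by_cases hx : x ∈ (univ.filter (fun u => x ∈ cone G h k u)).biUnion
            (fun u => univ.filter (fun v => u ∈ upN G h v))
          · rw [Finset.insert_eq_of_mem hx]; exact Nat.le_add_left _ _
          · rw [Finset.sum_insert hx]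
      _ ≤ (D + 1) ^ k * 2 ^ h x + D * ((D + 1) ^ k * 2 ^ h x) := by omega
      _ = (D + 1) ^ (k + 1) * 2 ^ h x := by ring

lemma card_cocone (G : SimpleGraph V) (h : V → ℕ) (D : ℕ)
    (hW : ∀ v, ∑ u ∈ nb G v, 2 ^ (min (h u) (h v)) ≤ D * 2 ^ h v) (x : V) (k H : ℕ) :
    (univ.filter (fun v => x ∈ cone G h k v ∧ h x ≤ h v + H)).card ≤ 2 ^ H * (D + 1) ^ k := by
  have h1 : (univ.filter (fun v => x ∈ cone G h k v ∧ h x ≤ h v + H)).card * 2 ^ h x ≤
      2 ^ H * (D + 1) ^ k * 2 ^ h x := by
    calc (univ.filter (fun v => x ∈ cone G h k v ∧ h x ≤ h v + H)).card * 2 ^ h x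
        = ∑ _v ∈ univ.filter (fun v => x ∈ cone G h k v ∧ h x ≤ h v + H), 2 ^ h x := by simp
      _ ≤ ∑ v ∈ univ.filter (fun v => x ∈ cone G h k v ∧ h x ≤ h v + H), 2 ^ H * 2 ^ h v := by
          refine Finset.sum_le_sum (fun v hv => ?_)
          rw [← pow_add]
          exact Nat.pow_le_pow_right (by norm_num) (by have := (mem_filter.1 hv).2.2; omega)
      _ ≤ ∑ v ∈ univ.filter (fun v => x ∈ cone G h k v), 2 ^ H * 2 ^ h v := by
          refine Finset.sum_le_sum_of_subset (fun v hv => ?_)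
          simp only [mem_filter, mem_univ, true_and] at hv ⊢
          exact hv.1
      _ = 2 ^ H * ∑ v ∈ univ.filter (fun v => x ∈ cone G h k v), 2 ^ h v := by
          rw [Finset.mul_sum]
      _ ≤ 2 ^ H * ((D + 1) ^ k * 2 ^ h x) := Nat.mul_le_mul_left _ (weight_cocone G h D hW x k)
      _ = _ := by ring
  exact Nat.le_of_mul_le_mul_right h1 (by positivity)

end Pool.Agent.H41Z.TD
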