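import Mathlib
import Pool.Agent.H41Z.TD.Comb
import Pool.Agent.H41Z.TD.Proc
import Pool.Agent.Helper635.LLL

set_option autoImplicit false

/-! One colouring round: colour most vertices and halve the degeneracy of the rest. -/

namespace Pool.Agent.H41Z.TD

open Finset
open scoped Classical

variable {V : Type} [Fintype V]

omit [Fintype V] in
lemma no_common {G : SimpleGraph V} (htri : G.CliqueFree 3) {u v z : V} (huv : G.Adj u v)
    (huz : G.Adj u z) (hvz : G.Adj v z) : False :=
  htri {u, v, z} (SimpleGraph.is3Clique_triple_iff.2 ⟨huv, huz, hvz⟩)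

/-- edges inside a level -/
def flatG (G : SimpleGraph V) (h : V → ℕ) : SimpleGraph V where
  Adj u v := G.Adj u v ∧ h u = h v
  symm := ⟨fun _ _ a => ⟨a.1.symm, a.2.symm⟩⟩
  loopless := ⟨fun _ a => G.irrefl a.1⟩

theorem round (G : SimpleGraph V) (htri : G.CliqueFree 3) (d J Δ s K : ℕ) (τ : ℝ) (hd : 1 ≤ d)
    (hG : Degen G d) (hΔ : ∀ v, (nb G v).card ≤ Δ) (hJ : 4 * Δ ≤ 2 ^ J) (hJ1 : 1 ≤ J)
    (hτ : 0 < τ) (hs : 8 * τ ≤ s) (hcap : τ / (9 * d) * Real.exp (8 * τ) ≤ 1 / 2)
    (hK : 144 * (9 * d) ≤ K * τ)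
    (hL : 4 * Real.exp (-(9 * d / (2 * (1 + τ * Real.exp (8 * τ))))) *
      (((9 * d + 1) ^ (J * s + 2) * (2 ^ (2 * J) * (9 * d + 1) ^ (J * s + 2)) : ℕ) : ℝ) ≤ 1) :
    ∃ R : Finset V, (∃ c : V → ℕ, (∀ v, c v < 2 * K) ∧
      ∀ u v, u ∉ R → v ∉ R → G.Adj u v → c u ≠ c v) ∧
      ∃ h : V → ℕ, ∀ v, ((upN G h v).filter (fun u => u ∈ R)).card ≤ d / 2 := by
  obtain ⟨h, hW, hLip⟩ := exists_height G d J Δ hd hG hΔ hJ
  set D := 9 * d with hDdef
  have hdR : (1 : ℝ) ≤ d := by exact_mod_cast hd
  have hDR : (D : ℝ) = 9 * d := by rw [hDdef]; push_cast; ring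
  have hDpos : (0 : ℝ) < D := by rw [hDR]; linarith
  have hup : ∀ v, (upN G h v).card ≤ D := card_upN G h D hW
  have hs1 : 1 ≤ s := by
    have : (0 : ℝ) < s := by linarith
    exact_mod_cast this
  have hK1 : 1 ≤ K := by
    by_contra hcon
    have : K = 0 := by omega
    rw [this] at hK
    simp only [Nat.cast_zero, zero_mul] at hK
    linarith
  obtain ⟨σ, hσ, hσF⟩ := exists_defective (flatG G h) D s hs1 (by
    intro v
    refine le_trans (Finset.card_le_card ?_) (hup v)
    intro u hu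
    rw [mem_nb] at hu
    exact mem_upN.2 ⟨hu.1, hu.2.le⟩)
  let l : V → ℕ := fun v => s * h v + σ v
  let b : V → ℕ := fun v => h v / J
  let P : V → Finset V := fun v => (nb G v).filter (fun u => b u = b v ∧ l v < l u)
  let F : V → Finset V := fun v => (nb (flatG G h) v).filter (fun u => σ u = σ v)
  have hPmem : ∀ v u, u ∈ P v ↔ G.Adj v u ∧ b u = b v ∧ l v < l u := by
    intro v u; simp only [P, mem_filter, mem_nb]
  have hFmem : ∀ v u, u ∈ F v ↔ (G.Adj v u ∧ h v = h u) ∧ σ u = σ v := by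
    intro v u; simp only [F, mem_filter, mem_nb, flatG]
  have hlh : ∀ v u, l v ≤ l u → h v ≤ h u := by
    intro v u hl
    by_contra hcon
    have h1 : s * (h u + 1) ≤ s * h v := Nat.mul_le_mul_left _ (by omega)
    have h2 := hσ u
    simp only [l] at hl
    rw [Nat.mul_add, Nat.mul_one] at h1
    omega
  have hPup : ∀ v, P v ⊆ upN G h v := by
    intro v u hu
    rw [hPmem] at hu
    exact mem_upN.2 ⟨hu.1, hlh v u hu.2.2.le⟩
  have hFup : ∀ v, F v ⊆ upN G h v := by
    intro v u hu
    rw [hFmem] at hu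
    exact mem_upN.2 ⟨hu.1.1, hu.1.2.le⟩
  have hdisj : ∀ v u, G.Adj v u → Disjoint (P u) (P v) := by
    intro v u huv
    rw [Finset.disjoint_left]
    intro z hz1 hz2
    exact no_common htri huv ((hPmem _ _).1 hz2).1 ((hPmem _ _).1 hz1).1
  set w0 : ℝ := τ / D with hw0
  have hw0pos : 0 < w0 := by positivity
  obtain ⟨M, hM⟩ := exists_nat_gt (8 / w0)
  have hMR : (0 : ℝ) < M := lt_trans (by positivity) hM
  have hMpos : 0 < M := by exact_mod_cast hMR
  obtain ⟨W, hWeq⟩ := exists_weights M w0 (w0 * Real.exp (8 * τ)) P l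
    (fun v u hu => ((hPmem v u).1 hu).2.2)
  let X : Proc V :=
    { M := M, w0 := w0, cap := w0 * Real.exp (8 * τ), P := P, l := l, W := W, hM := hMpos
      hw0 := hw0pos.le, hc0 := by positivity
      hc1 := by rw [hw0, hDR]; exact hcap
      hP := fun v u hu => ((hPmem v u).1 hu).2.2
      hW := hWeq }
  have hw0D : w0 * D = τ := by rw [hw0]; field_simp
  have hsel : ∀ v, X.w0 / 2 ≤ Ex (fun ω => if X.sel F ω v then (1 : ℝ) else 0) := by
    intro v
    refine X.Ex_sel_ge F D s τ hτ hw0D rfl ?_ hs v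
      ((Finset.card_le_card (hPup v)).trans (hup v))
      (fun u hu => hdisj v u ((hPmem v u).1 hu).1) (hσF v) ?_
    · show 1 / (M : ℝ) ≤ w0 / 8
      rw [div_lt_iff₀ hw0pos] at hM
      rw [div_le_div_iff₀ hMR (by norm_num)]
      linarith
    · intro u hu
      rw [hFmem] at hu
      refine ⟨hu.1.1.ne', ?_, hdisj v u hu.1.1⟩
      show s * h u + σ u = s * h v + σ v
      rw [hu.1.2, hu.2]
  set lam : ℝ := 1 / (2 * (1 + τ * Real.exp (8 * τ))) with hlam
  have hlampos : 0 < lam := by positivity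
  set t : ℕ := d / 2 + 1 with ht
  have hmom : ∀ Y : Finset V, Y.card ≤ D → t ≤ Y.card →
      Ex (fun ω => Real.exp (-(lam * ((Y.filter (X.sel F ω)).card : ℝ)))) ≤
        Real.exp (-(lam * t * w0 / 4)) := by
    intro Y hY htY
    refine (X.exp_moment F D t hsel lam hlampos.le ?_ Y hY htY).trans ?_
    · show lam * (1 + D * (w0 * Real.exp (8 * τ))) ≤ 1 / 2
      rw [← mul_assoc, mul_comm (D : ℝ) w0, hw0D, hlam]
      apply le_of_eq
      field_simp
    · have := Real.add_one_le_exp (-(lam * t * w0 / 4))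
      show 1 - lam * t * w0 / 4 ≤ _
      linarith
  have hneX : Nonempty (V → Fin X.M) := ⟨fun _ => ⟨0, hMpos⟩⟩
  have hcov := cover_bound (X.sel F) D t lam _ hlampos.le (Real.exp_pos _).le hmom K
  -- the bad events
  let B : V → (V → (Fin K → Fin M)) → Prop := fun v ω =>
    t ≤ (unc (X.sel F) (upN G h v) (fun c u => ω u c)).card
  let S : V → Finset V := fun v => univ.filter (fun x => ∃ u, (u ∈ upN G h v ∨
    ∃ u' ∈ upN G h v, u ∈ F u') ∧ Relation.ReflTransGen (fun a a' => a' ∈ P a) u x)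
  have hSmem : ∀ v x, x ∈ S v ↔ ∃ u, (u ∈ upN G h v ∨
      ∃ u' ∈ upN G h v, u ∈ F u') ∧ Relation.ReflTransGen (fun a a' => a' ∈ P a) u x := by
    intro v x; simp only [S, mem_filter, mem_univ, true_and]
  have hSclosed : ∀ v, ∀ x ∈ S v, ∀ y ∈ P x, y ∈ S v := by
    intro v x hx y hy
    obtain ⟨u, hu, hux⟩ := (hSmem v x).1 hx
    exact (hSmem v y).2 ⟨u, hu, hux.tail hy⟩
  have hfires : ∀ v (ω ω' : V → Fin M), (∀ x ∈ S v, ω x = ω' x) → ∀ x ∈ S v,
      (X.fires ω x ↔ X.fires ω' x) := by
    intro v ω ω' hω x hx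
    have h1 := X.W_dep (S v : Set V) (fun a ha u hu => hSclosed v a ha u hu) ω ω'
      (fun a ha => hω a ha) x (fun u hu => hSclosed v x hx u hu)
    unfold Proc.fires
    rw [h1, hω x hx]
  have hBdep : ∀ v ∈ (univ : Finset V), Helper635.LLL.DependsOn (B v) (S v) := by
    intro v _ ω ω' hω hB
    have : unc (X.sel F) (upN G h v) (fun c u => ω u c) =
        unc (X.sel F) (upN G h v) (fun c u => ω' u c) := by
      unfold unc
      refine Finset.filter_congr (fun u hu => ?_)
      refine forall_congr' (fun c => not_congr ?_)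
      have hc : ∀ x ∈ S v, (fun u => ω u c) x = (fun u => ω' u c) x := by
        intro x hx; simp only [hω x hx]
      unfold Proc.sel
      refine and_congr (hfires v _ _ hc u ((hSmem v u).2 ⟨u, Or.inl hu, .refl⟩)) ?_
      refine forall_congr' (fun u' => forall_congr' (fun hu' => not_congr ?_))
      exact hfires v _ _ hc u' ((hSmem v u').2 ⟨u', Or.inr ⟨u, hu, hu'⟩, .refl⟩)
    simp only [B] at hB ⊢
    rw [← this]; exact hB
  have hchain : ∀ u x, Relation.ReflTransGen (fun a a' => a' ∈ P a) u x →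
      b x = b u ∧ l u ≤ l x ∧ x ∈ cone G h (l x - l u) u := by
    intro u x hux
    induction hux using Relation.ReflTransGen.head_induction_on with
    | refl => exact ⟨rfl, le_rfl, self_mem_cone _ _ _ _⟩
    | @head a c hac _ ih =>
      have h1 := (hPmem a c).1 hac
      refine ⟨ih.1.trans h1.2.1, (h1.2.2.le).trans ih.2.1, ?_⟩
      refine cone_mono G h (k := l x - l c + 1) (by have := h1.2.2; have := ih.2.1; omega) a ?_
      exact mem_cone_succ (hPup a hac) ih.2.2
  have hblock : ∀ u x, b x = b u → h x < h u + J := by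
    intro u x hb
    have h1 := Nat.div_add_mod (h x) J
    have h2 := Nat.div_add_mod (h u) J
    have h3 := Nat.mod_lt (h x) (show 0 < J by omega)
    simp only [b] at hb
    rw [hb] at h1
    omega
  have hchain2 : ∀ u x, Relation.ReflTransGen (fun a a' => a' ∈ P a) u x →
      h x ≤ h u + J ∧ x ∈ cone G h (J * s) u := by
    intro u x hux
    obtain ⟨h1, h2, h3⟩ := hchain u x hux
    have h4 := hblock u x h1
    refine ⟨h4.le, cone_mono G h ?_ u h3⟩
    have h5 : s * (h x + 1) ≤ s * (h u + J) := Nat.mul_le_mul_left _ h4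
    have h6 := hσ x
    simp only [l]
    rw [Nat.mul_add, Nat.mul_add, Nat.mul_one, Nat.mul_comm s J] at h5
    omega
  have hScone : ∀ v, ∀ x ∈ S v, x ∈ cone G h (J * s + 2) v ∧ h x ≤ h v + 2 * J := by
    intro v x hx
    obtain ⟨u, hu, hux⟩ := (hSmem v x).1 hx
    obtain ⟨h1, h2⟩ := hchain2 u x hux
    rcases hu with hu | ⟨u', hu', hu⟩
    · refine ⟨cone_mono_succ G h _ v (mem_cone_succ hu h2), ?_⟩
      have := hLip v u (mem_upN.1 hu).1
      omega
    · refine ⟨mem_cone_succ hu' (mem_cone_succ (hFup u' hu) h2), ?_⟩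
      have h3 := hLip v u' (mem_upN.1 hu').1
      have h4 := ((hFmem u' u).1 hu).1.2
      omega
  have hdeg : ∀ v ∈ (univ : Finset V), (univ.filter (fun j => ¬ Disjoint (S v) (S j))).card ≤
      (D + 1) ^ (J * s + 2) * (2 ^ (2 * J) * (D + 1) ^ (J * s + 2)) := by
    intro v _
    have hsub : univ.filter (fun j => ¬ Disjoint (S v) (S j)) ⊆
        (cone G h (J * s + 2) v).biUnion (fun x => univ.filter
          (fun j => x ∈ cone G h (J * s + 2) j ∧ h x ≤ h j + 2 * J)) := by
      intro j hj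
      rw [mem_filter, Finset.not_disjoint_iff] at hj
      obtain ⟨-, x, hx1, hx2⟩ := hj
      rw [mem_biUnion]
      exact ⟨x, (hScone v x hx1).1, mem_filter.2 ⟨mem_univ _, hScone j x hx2⟩⟩
    refine (Finset.card_le_card hsub).trans ?_
    refine (Finset.card_biUnion_le_card_mul _ _ _
      (fun x _ => card_cocone G h D hW x (J * s + 2) (2 * J))).trans ?_
    exact Nat.mul_le_mul_right _ (card_cone G h D hup _ v)
  have hne : Nonempty (Fin M) := ⟨⟨0, hMpos⟩⟩
  have hcardpos : 0 < Fintype.card (V → (Fin K → Fin M)) := Fintype.card_pos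
  have hprob : ∀ v ∈ (univ : Finset V), (Helper635.LLL.cnt (B v) : ℝ) ≤
      Real.exp (-(lam * D)) * Fintype.card (V → (Fin K → Fin M)) := by
    intro v _
    have hc : (0 : ℝ) < Fintype.card (V → (Fin K → Fin M)) := by exact_mod_cast hcardpos
    rw [← div_le_iff₀ hc]
    have e1 : (Helper635.LLL.cnt (B v) : ℝ) / Fintype.card (V → (Fin K → Fin M)) =
        Ex (fun ω : V → (Fin K → Fin M) => if B v ω then (1 : ℝ) else 0) := by
      unfold Ex Helper635.LLL.cnt Helper635.LLL.ev
      rw [Finset.card_filter]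
      push_cast
      congr
    have e2 : Ex (fun ω : V → (Fin K → Fin M) => if B v ω then (1 : ℝ) else 0) =
        Ex (fun w : Fin K → (V → Fin M) =>
          if t ≤ (unc (X.sel F) (upN G h v) w).card then (1 : ℝ) else 0) := by
      rw [← Ex_equiv (Equiv.piComm (fun (_ : V) (_ : Fin K) => Fin M))]
      refine Ex_congr (fun ω => ?_)
      congr
    rw [e1, e2]
    refine (hcov (upN G h v) (hup v)).trans ?_
    rw [← Real.exp_nat_mul, ← Real.exp_add]
    refine Real.exp_le_exp.2 ?_
    have a1 : ((upN G h v).card : ℝ) ≤ D := by exact_mod_cast hup v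
    have a2 : (d : ℝ) / 2 ≤ t := by
      have : d ≤ 2 * t := by omega
      have : (d : ℝ) ≤ 2 * t := by exact_mod_cast this
      linarith
    have a3 : (0 : ℝ) ≤ t := Nat.cast_nonneg _
    have a4 : 2 * (D : ℝ) ≤ K * (t * w0 / 4) := by
      have b1 : τ / 72 ≤ t * w0 / 4 := by
        have : τ = 9 * d * w0 := by rw [← hw0D, hDR]; ring
        rw [this]
        nlinarith
      have b2 : (K : ℝ) * (τ / 72) ≤ K * (t * w0 / 4) :=
        mul_le_mul_of_nonneg_left b1 (Nat.cast_nonneg _)
      rw [hDR]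
      linarith
    have a5 := mul_le_mul_of_nonneg_left a4 hlampos.le
    have a6 := mul_le_mul_of_nonneg_left a1 hlampos.le
    have a7 := mul_nonneg hlampos.le a3
    nlinarith
  obtain ⟨ω, hω⟩ := Helper635.LLL.lll (univ : Finset V) B S hBdep (Real.exp (-(lam * D)))
    ((D + 1) ^ (J * s + 2) * (2 ^ (2 * J) * (D + 1) ^ (J * s + 2))) (Real.exp_pos _).le
    (fun v hv => by convert hprob v hv) (fun v hv => by convert hdeg v hv)
    (by
      have : lam * D = 9 * d / (2 * (1 + τ * Real.exp (8 * τ))) := by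
        rw [hlam, hDR]; ring
      rw [this]
      exact hL)
    (Nat.succ_le_of_lt (by positivity)) (by convert hcardpos)
  let R : Finset V := univ.filter (fun v => ∀ c : Fin K, ¬ X.sel F (fun u => ω u c) v)
  have hR : ∀ v, v ∉ R → ∃ c : Fin K, X.sel F (fun u => ω u c) v := by
    intro v hv
    simp only [R, mem_filter, mem_univ, true_and, not_forall, not_not] at hv
    exact hv
  refine ⟨R, ⟨fun v => if hv : v ∉ R then 2 * ((hR v hv).choose : ℕ) + b v % 2 else 0, ?_, ?_⟩,
    h, ?_⟩
  · intro v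
    beta_reduce
    split_ifs with hv
    · omega
    · have := (hR v hv).choose.2
      omega
  · intro u v hu hv huv heq
    beta_reduce at heq
    rw [dif_pos hu, dif_pos hv] at heq
    have h1 : (hR u hu).choose = (hR v hv).choose := Fin.ext (by omega)
    have h2 : b u % 2 = b v % 2 := by omega
    have h3 : b v ≤ b u + 1 := by
      simp only [b]
      rw [← Nat.add_div_right _ (show 0 < J by omega)]
      exact Nat.div_le_div_right (hLip u v huv)
    have h4 : b u ≤ b v + 1 := by
      simp only [b]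
      rw [← Nat.add_div_right _ (show 0 < J by omega)]
      exact Nat.div_le_div_right (hLip v u huv.symm)
    have h5 : b u = b v := by omega
    have su := (hR u hu).choose_spec
    have sv := (hR v hv).choose_spec
    rw [h1] at su
    rcases lt_trichotomy (l u) (l v) with hl | hl | hl
    · exact X.not_fires_of_parent _ u v ((hPmem u v).2 ⟨huv, h5.symm, hl⟩) sv.1 su.1
    · have h6 : h u = h v := le_antisymm (hlh u v hl.le) (hlh v u hl.ge)
      have h7 : σ v = σ u := by
        simp only [l] at hl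
        rw [h6] at hl
        omega
      exact su.2 v ((hFmem u v).2 ⟨⟨huv, h6⟩, h7⟩) sv.1
    · exact X.not_fires_of_parent _ v u ((hPmem v u).2 ⟨huv.symm, h5, hl⟩) su.1 sv.1
  · intro v
    have h1 := hω v (mem_univ v)
    simp only [B, not_le] at h1
    have h2 : (upN G h v).filter (fun u => u ∈ R) =
        unc (X.sel F) (upN G h v) (fun c u => ω u c) := by
      unfold unc
      refine Finset.filter_congr (fun u _ => ?_)
      simp only [R, mem_filter, mem_univ, true_and]
    rw [h2]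
    omega

end Pool.Agent.H41Z.TD
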