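import Mathlib
import Pool.Agent.H41Z.TD.Round

set_option autoImplicit false

/-! Iterating the colouring rounds and the choice of parameters. -/

namespace Pool.Agent.H41Z.TD

open Finset
open scoped Classical

variable {V : Type} [Fintype V]

/-- the edges inside `R` -/
def restr (G : SimpleGraph V) (R : Finset V) : SimpleGraph V where
  Adj u v := G.Adj u v ∧ u ∈ R ∧ v ∈ R
  symm := ⟨fun _ _ a => ⟨a.1.symm, a.2.2, a.2.1⟩⟩
  loopless := ⟨fun _ a => G.irrefl a.1⟩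

theorem iter (d J Δ s : ℕ) (τ dl : ℝ) (hJ : 4 * Δ ≤ 2 ^ J) (hJ1 : 1 ≤ J)
    (hτ : 0 < τ) (hs : 8 * τ ≤ s) (hdl : τ ≤ dl)
    (hcap : τ / (9 * dl) * Real.exp (8 * τ) ≤ 1 / 2)
    (hL : 4 * Real.exp (-(9 * dl / (2 * (1 + τ * Real.exp (8 * τ))))) *
      (((9 * d + 1) ^ (J * s + 2) * (2 ^ (2 * J) * (9 * d + 1) ^ (J * s + 2)) : ℕ) : ℝ) ≤ 1) :
    ∀ e : ℕ, e ≤ d → ∀ G : SimpleGraph V, G.CliqueFree 3 → Degen G e →
      (∀ v, (nb G v).card ≤ Δ) → ∃ k : ℕ, Col G k ∧ (k : ℝ) ≤ 5188 * e / τ + dl + 1 := by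
  intro e
  induction e using Nat.strong_induction_on with
  | _ e ih =>
    intro hed G htri hG hΔ
    have hdl0 : 0 < dl := lt_of_lt_of_le hτ hdl
    by_cases hsmall : (e : ℝ) ≤ dl
    · refine ⟨e + 1, col_of_degen G e hG, ?_⟩
      push_cast
      have : 0 ≤ 5188 * (e : ℝ) / τ := by positivity
      linarith
    push Not at hsmall
    have heR : (0 : ℝ) < e := lt_trans hdl0 hsmall
    have he1 : 1 ≤ e := by exact_mod_cast heR
    set K : ℕ := ⌈1296 * (e : ℝ) / τ⌉₊ with hKdef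
    have hK1 : 1296 * (e : ℝ) / τ ≤ K := Nat.le_ceil _
    have hK2 : (K : ℝ) ≤ 1297 * e / τ := by
      have h1 : (K : ℝ) < 1296 * (e : ℝ) / τ + 1 := Nat.ceil_lt_add_one (by positivity)
      have h2 : 1 ≤ (e : ℝ) / τ := by rw [le_div_iff₀ hτ]; linarith
      have h3 : 1297 * (e : ℝ) / τ = 1296 * e / τ + e / τ := by ring
      linarith
    obtain ⟨R, ⟨c, hc1, hc2⟩, h, hh⟩ := round G htri e J Δ s K τ he1 hG hΔ hJ hJ1 hτ hs
      (by
        refine le_trans ?_ hcap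
        gcongr)
      (by
        rw [div_le_iff₀ hτ] at hK1
        linarith)
      (by
        refine le_trans ?_ hL
        have a1 : Real.exp (-(9 * e / (2 * (1 + τ * Real.exp (8 * τ))))) ≤
            Real.exp (-(9 * dl / (2 * (1 + τ * Real.exp (8 * τ))))) := by
          refine Real.exp_le_exp.2 (neg_le_neg ?_)
          gcongr
        have a2 : (9 * e + 1) ^ (J * s + 2) * (2 ^ (2 * J) * (9 * e + 1) ^ (J * s + 2)) ≤
            (9 * d + 1) ^ (J * s + 2) * (2 ^ (2 * J) * (9 * d + 1) ^ (J * s + 2)) := by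
          gcongr
        have a3 : (((9 * e + 1) ^ (J * s + 2) * (2 ^ (2 * J) * (9 * e + 1) ^ (J * s + 2)) : ℕ) : ℝ)
            ≤ (((9 * d + 1) ^ (J * s + 2) * (2 ^ (2 * J) * (9 * d + 1) ^ (J * s + 2)) : ℕ) : ℝ) := by
          exact_mod_cast a2
        exact mul_le_mul (by linarith) a3 (Nat.cast_nonneg _) (by positivity))
    have hle : restr G R ≤ G := fun _ _ a => a.1
    obtain ⟨k, ⟨c', hc1', hc2'⟩, hk⟩ := ih (e / 2) (by omega) (by omega) (restr G R)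
      (htri.anti hle)
      (by
        intro S hS
        obtain ⟨v, hv, hmin⟩ := Finset.exists_min_image S h hS
        refine ⟨v, hv, le_trans (Finset.card_le_card ?_) (hh v)⟩
        intro u hu
        rw [mem_filter] at hu ⊢
        exact ⟨mem_upN.2 ⟨hu.2.1, hmin u hu.1⟩, hu.2.2.2⟩)
      (by
        intro v
        refine le_trans (Finset.card_le_card ?_) (hΔ v)
        intro u hu
        rw [mem_nb] at hu ⊢
        exact hu.1)
    refine ⟨2 * K + k, ⟨fun v => if v ∈ R then 2 * K + c' v else c v, ?_, ?_⟩, ?_⟩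
    · intro v
      beta_reduce
      have := hc1 v
      have := hc1' v
      split_ifs <;> omega
    · intro u v huv
      beta_reduce
      have a1 := hc1 u
      have a2 := hc1 v
      by_cases hu : u ∈ R <;> by_cases hv : v ∈ R
      · rw [if_pos hu, if_pos hv]
        have := hc2' u v ⟨huv, hu, hv⟩
        omega
      · rw [if_pos hu, if_neg hv]; omega
      · rw [if_neg hu, if_pos hv]; omega
      · rw [if_neg hu, if_neg hv]; exact hc2 u v hu hv huv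
    · push_cast
      have a1 : ((e / 2 : ℕ) : ℝ) ≤ (e : ℝ) / 2 := Nat.cast_div_le
      have a2 : 5188 * ((e / 2 : ℕ) : ℝ) / τ ≤ 5188 * ((e : ℝ) / 2) / τ := by gcongr
      have a3 : 5188 * (e : ℝ) / τ = 2 * (1297 * e / τ) + 5188 * ((e : ℝ) / 2) / τ := by ring
      linarith

lemma aux_J (z : ℝ) (_hz : 1 ≤ z) : 4 * ⌊Real.exp z⌋₊ ≤ 2 ^ (⌈2 * z⌉₊ + 2) := by
  have hlog2 : 1 / 2 ≤ Real.log 2 := by have := Real.log_two_gt_d9; linarith
  have h1 : (⌊Real.exp z⌋₊ : ℝ) ≤ Real.exp z := Nat.floor_le (Real.exp_pos _).le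
  have h2 : Real.exp z ≤ (2 : ℝ) ^ ⌈2 * z⌉₊ := by
    have a1 : (2 : ℝ) ^ ⌈2 * z⌉₊ = Real.exp (⌈2 * z⌉₊ * Real.log 2) := by
      rw [Real.exp_nat_mul, Real.exp_log (by norm_num)]
    rw [a1]
    refine Real.exp_le_exp.2 ?_
    have := Nat.le_ceil (2 * z)
    nlinarith
  have h3 : ((4 * ⌊Real.exp z⌋₊ : ℕ) : ℝ) ≤ ((2 ^ (⌈2 * z⌉₊ + 2) : ℕ) : ℝ) := by
    push_cast; rw [pow_add]; linarith
  exact_mod_cast h3

lemma aux_N (d J s : ℕ) (x z : ℝ) (hx : 1 ≤ x) (hz : 1 ≤ z) (hd : (d : ℝ) = Real.exp x)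
    (hJ : (J : ℝ) ≤ 5 * z) (hs : (s : ℝ) ≤ 2 * x) :
    (((9 * d + 1) ^ (J * s + 2) * (2 ^ (2 * J) * (9 * d + 1) ^ (J * s + 2)) : ℕ) : ℝ)
      ≤ Real.exp (106 * z * x ^ 2) := by
  have h1 : (9 * (d : ℝ) + 1) ≤ Real.exp (4 * x) := by
    have b1 := Real.quadratic_le_exp_of_nonneg (show (0 : ℝ) ≤ x by linarith)
    have b2 : Real.exp (4 * x) = Real.exp x ^ 3 * Real.exp x := by
      rw [← Real.exp_nat_mul, ← Real.exp_add]; congr 1; push_cast; ring
    have b3 : (5 / 2 : ℝ) ≤ Real.exp x := by nlinarith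
    have b4 : (5 / 2 : ℝ) ^ 3 ≤ Real.exp x ^ 3 := by gcongr
    have b5 : (10 : ℝ) ≤ Real.exp x ^ 3 := by
      linarith [show (10 : ℝ) ≤ (5 / 2) ^ 3 by norm_num]
    have b6 := mul_le_mul_of_nonneg_right b5 (Real.exp_pos x).le
    rw [b2, hd]; linarith
  have h2 : (2 : ℝ) ≤ Real.exp 1 := by
    have := Real.add_one_le_exp (1 : ℝ); linarith
  have hzx : 1 ≤ z * x := by nlinarith
  have h3 : ((J * s + 2 : ℕ) : ℝ) ≤ 12 * z * x := by
    push_cast
    have : (J : ℝ) * s ≤ (5 * z) * (2 * x) :=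
      mul_le_mul hJ hs (Nat.cast_nonneg _) (by linarith)
    linarith
  have h4 : (9 * (d : ℝ) + 1) ^ (J * s + 2) ≤ Real.exp (48 * z * x ^ 2) := by
    refine (pow_le_pow_left₀ (by positivity) h1 _).trans ?_
    rw [← Real.exp_nat_mul]
    refine Real.exp_le_exp.2 ?_
    have := mul_le_mul_of_nonneg_right h3 (show 0 ≤ 4 * x by linarith)
    linarith
  have h5 : (2 : ℝ) ^ (2 * J) ≤ Real.exp (10 * z * x ^ 2) := by
    refine (pow_le_pow_left₀ (by positivity) h2 _).trans ?_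
    rw [← Real.exp_nat_mul]
    refine Real.exp_le_exp.2 ?_
    push_cast
    have a1 : 1 ≤ x ^ 2 := by nlinarith
    have a2 := mul_le_mul_of_nonneg_left a1 (show 0 ≤ 10 * z by linarith)
    linarith
  push_cast
  calc (9 * (d : ℝ) + 1) ^ (J * s + 2) * (2 ^ (2 * J) * (9 * (d : ℝ) + 1) ^ (J * s + 2))
      ≤ Real.exp (48 * z * x ^ 2) *
        (Real.exp (10 * z * x ^ 2) * Real.exp (48 * z * x ^ 2)) := by
        gcongr
    _ = Real.exp (106 * z * x ^ 2) := by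
        rw [← Real.exp_add, ← Real.exp_add]; congr 1; ring

lemma aux_L (x y z τ N : ℝ) (hx : 1 ≤ x) (hz : 1 ≤ z) (hy : 48 * x ^ 4 ≤ y) (hτ : 0 < τ)
    (hτx : τ ≤ x / 16) (hN0 : 0 ≤ N) (hN : N ≤ Real.exp (106 * z * x ^ 2)) :
    4 * Real.exp (-(9 * (z * y ^ 2 / x) / (2 * (1 + τ * y)))) * N ≤ 1 := by
  have hx0 : 0 < x := by linarith
  have hx2 : 1 ≤ x ^ 2 := by nlinarith
  have hx4 : 1 ≤ x ^ 4 := by nlinarith
  have hy1 : 48 ≤ y := by linarith
  have hy0 : 0 < y := by linarith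
  have h4 : (4 : ℝ) ≤ Real.exp (2 * z * x ^ 2) := by
    have a1 : (4 : ℝ) ≤ Real.exp 2 := by
      have := Real.quadratic_le_exp_of_nonneg (show (0 : ℝ) ≤ 2 by norm_num); linarith
    refine a1.trans (Real.exp_le_exp.2 ?_)
    nlinarith
  have h6 : 108 * z * x ^ 2 ≤ 9 * (z * y ^ 2 / x) / (2 * (1 + τ * y)) := by
    rw [le_div_iff₀ (by positivity), ← mul_div_assoc, le_div_iff₀ hx0]
    have a1 : 1 + τ * y ≤ 2 * x * y := by nlinarith
    have a2 : 108 * z * x ^ 2 * (2 * (1 + τ * y)) * x ≤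
        108 * z * x ^ 2 * (2 * (2 * x * y)) * x := by
      gcongr
    have a3 : 108 * z * x ^ 2 * (2 * (2 * x * y)) * x = 9 * (z * y) * (48 * x ^ 4) := by ring
    have a4 : 9 * (z * y) * (48 * x ^ 4) ≤ 9 * (z * y) * y := by gcongr
    have a5 : 9 * (z * y) * y = 9 * (z * y ^ 2) := by ring
    linarith
  calc 4 * Real.exp (-(9 * (z * y ^ 2 / x) / (2 * (1 + τ * y)))) * N
      ≤ Real.exp (2 * z * x ^ 2) * Real.exp (-(108 * z * x ^ 2)) *
        Real.exp (106 * z * x ^ 2) := by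
        gcongr
    _ = 1 := by
        rw [← Real.exp_add, ← Real.exp_add, ← Real.exp_zero]; congr 1; ring

lemma aux_yx (x y z : ℝ) (hx : 1 ≤ x) (hz : 1 ≤ z) (hy : 48 * x ^ 4 ≤ y) :
    y * x ≤ z * y ^ 2 / x := by
  have hx2 : 1 ≤ x ^ 2 := by nlinarith
  have hx4 : x ^ 2 ≤ x ^ 4 := by nlinarith
  have hy0 : 0 < y := by nlinarith
  rw [le_div_iff₀ (by linarith)]
  have a1 : x ^ 2 ≤ y := by nlinarith
  have a2 : y * x ^ 2 ≤ y * y := by gcongr
  have a3 : y ^ 2 ≤ z * y ^ 2 := le_mul_of_one_le_left (by positivity) hz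
  nlinarith

/-- the large-degeneracy case -/
theorem large (ε : ℝ) (hε : 0 < ε) (hε1 : ε ≤ 1) (d : ℕ) (hx : 1 ≤ Real.log d)
    (hy : 48 * Real.log d ^ 4 ≤ (d : ℝ) ^ (ε / 2)) (G : SimpleGraph V) (htri : G.CliqueFree 3)
    (hG : Degen G d) (hΔ : ∀ v, ((nb G v).card : ℝ) ≤ Real.exp ((d : ℝ) ^ (1 - ε))) :
    ∃ k : ℕ, Col G k ∧ (k : ℝ) ≤ (83008 / ε + 2) * d / Real.log d := by
  have hd0 : (0 : ℝ) < d := by
    rcases Nat.eq_zero_or_pos d with h | h
    · rw [h] at hx; simp at hx; linarith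
    · exact_mod_cast h
  have hd1 : (1 : ℝ) ≤ d := by exact_mod_cast (show 0 < d by exact_mod_cast hd0)
  have hz : 1 ≤ (d : ℝ) ^ (1 - ε) := Real.one_le_rpow hd1 (by linarith)
  have hdz : (d : ℝ) = (d : ℝ) ^ (1 - ε) * ((d : ℝ) ^ (ε / 2)) ^ 2 := by
    rw [sq, ← Real.rpow_add hd0, ← Real.rpow_add hd0]
    have : 1 - ε + (ε / 2 + ε / 2) = 1 := by ring
    rw [this, Real.rpow_one]
  have hexp : Real.exp (8 * (ε * Real.log d / 16)) = (d : ℝ) ^ (ε / 2) := by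
    rw [Real.rpow_def_of_pos hd0]
    congr 1; ring
  have hdx : (d : ℝ) = Real.exp (Real.log d) := (Real.exp_log hd0).symm
  generalize Real.log d = x at *
  generalize (d : ℝ) ^ (ε / 2) = y at *
  generalize (d : ℝ) ^ (1 - ε) = z at *
  have hx0 : 0 < x := by linarith
  have hx4 : 1 ≤ x ^ 4 := one_le_pow₀ hx
  have hy1 : 48 ≤ y := by linarith
  have hτ : 0 < ε * x / 16 := by positivity
  have hτx : ε * x / 16 ≤ x / 16 := by nlinarith
  have hJle : ((⌈2 * z⌉₊ + 2 : ℕ) : ℝ) ≤ 5 * z := by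
    have : (⌈2 * z⌉₊ : ℝ) < 2 * z + 1 := Nat.ceil_lt_add_one (by linarith)
    push_cast; linarith
  have hsle : (⌈8 * (ε * x / 16)⌉₊ : ℝ) ≤ 2 * x := by
    have : (⌈8 * (ε * x / 16)⌉₊ : ℝ) < 8 * (ε * x / 16) + 1 :=
      Nat.ceil_lt_add_one (by positivity)
    linarith
  have hyx : y * x ≤ d / x := by
    have := aux_yx x y z hx hz hy
    rwa [← hdz] at this
  have hxd : x ≤ d / x := le_trans (le_mul_of_one_le_left hx0.le (by linarith)) hyx
  obtain ⟨k, hk1, hk2⟩ := iter (V := V) d (⌈2 * z⌉₊ + 2) ⌊Real.exp z⌋₊ ⌈8 * (ε * x / 16)⌉₊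
    (ε * x / 16) (d / x) (aux_J z hz) (by omega) hτ (Nat.le_ceil _)
    (by linarith)
    (by
      rw [hexp, div_mul_eq_mul_div, div_le_iff₀ (by positivity)]
      have := mul_le_mul_of_nonneg_right hτx (show 0 ≤ y by linarith)
      have : 0 ≤ x * y := by positivity
      linarith)
    (by
      rw [hexp]
      have := aux_L x y z (ε * x / 16) _ hx hz hy hτ hτx (Nat.cast_nonneg _)
        (aux_N d _ _ x z hx hz hdx hJle hsle)
      rwa [← hdz] at this)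
    d le_rfl G htri hG
    (fun v => Nat.le_floor (hΔ v))
  refine ⟨k, hk1, hk2.trans ?_⟩
  have h1 : 5188 * (d : ℝ) / (ε * x / 16) = (83008 / ε) * d / x := by
    field_simp; ring
  have h2 : (83008 / ε + 2) * (d : ℝ) / x = (83008 / ε) * d / x + 2 * (d / x) := by ring
  rw [h1, h2]
  linarith

theorem main (ε : ℝ) (hε : 0 < ε) : ∃ C : ℝ, ∀ d : ℕ, 2 ≤ d →
    ∀ (V : Type) [Fintype V] (G : SimpleGraph V), G.CliqueFree 3 → Degen G d →
      (∀ v, ((nb G v).card : ℝ) ≤ Real.exp ((d : ℝ) ^ (1 - ε))) →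
      ∃ k : ℕ, Col G k ∧ (k : ℝ) ≤ C * (d : ℝ) / Real.log (d : ℝ) := by
  set η := min ε 1 with hη
  have hη0 : 0 < η := lt_min hε one_pos
  have hev : ∀ᶠ n : ℕ in Filter.atTop, 1 ≤ Real.log n ∧
      48 * Real.log n ^ 4 ≤ (n : ℝ) ^ (η / 2) := by
    have h1 : ∀ᶠ r : ℝ in Filter.atTop, 1 ≤ Real.log r :=
      Real.tendsto_log_atTop.eventually_ge_atTop 1
    have h2 := (isLittleO_log_rpow_rpow_atTop (4 : ℝ) (show 0 < η / 2 by linarith)).bound
      (show (0 : ℝ) < 1 / 48 by norm_num)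
    have h3 : ∀ᶠ r : ℝ in Filter.atTop, 1 ≤ Real.log r ∧ 48 * Real.log r ^ 4 ≤ r ^ (η / 2) := by
      filter_upwards [h1, h2, Filter.eventually_ge_atTop (0 : ℝ)] with r a1 a2 a3
      refine ⟨a1, ?_⟩
      rw [Real.norm_of_nonneg (Real.rpow_nonneg (by linarith) _),
        Real.norm_of_nonneg (Real.rpow_nonneg a3 _),
        show (4 : ℝ) = ((4 : ℕ) : ℝ) by norm_num, Real.rpow_natCast] at a2
      linarith
    exact tendsto_natCast_atTop_atTop.eventually h3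
  obtain ⟨d0, hd0⟩ := Filter.eventually_atTop.1 hev
  refine ⟨max (83008 / η + 2) (2 * d0), ?_⟩
  intro d hd V _ G htri hG hΔ
  have hdR : (2 : ℝ) ≤ d := by exact_mod_cast hd
  have hlog : 0 < Real.log d := Real.log_pos (by linarith)
  by_cases hlarge : d0 ≤ d
  · obtain ⟨k, hk1, hk2⟩ := large η hη0 (min_le_right _ _) d (hd0 d hlarge).1 (hd0 d hlarge).2
      G htri hG (fun v => (hΔ v).trans (Real.exp_le_exp.2
        (Real.rpow_le_rpow_of_exponent_le (by linarith) (by linarith [min_le_left ε 1]))))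
    refine ⟨k, hk1, hk2.trans ?_⟩
    gcongr
    exact le_max_left _ _
  · refine ⟨d + 1, col_of_degen G d hG, ?_⟩
    rw [le_div_iff₀ hlog]
    have h1 : Real.log d ≤ d0 := by
      have a1 := Real.log_le_sub_one_of_pos (show (0 : ℝ) < d by linarith)
      have a2 : (d : ℝ) ≤ d0 := by exact_mod_cast (show d ≤ d0 by omega)
      linarith
    have h2 : (2 * d0 : ℝ) ≤ max (83008 / η + 2) (2 * d0) := le_max_right _ _
    push_cast
    calc ((d : ℝ) + 1) * Real.log d ≤ (2 * d) * d0 := by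
          apply mul_le_mul (by linarith) h1 hlog.le (by linarith)
      _ = (2 * d0) * d := by ring
      _ ≤ _ := mul_le_mul_of_nonneg_right h2 (by linarith)

end Pool.Agent.H41Z.TD
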